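import Pool.Agent.MycT.Scal

set_option autoImplicit false

/-!
# Short proofs of the clause `cl`
-/

namespace Pool.Agent.MycT

open Pool.Agent.Myc Fm

section
variable {M : Type} {S : XStr M}

theorem DG_append (u v : List Bool) (x z : M) :
    DG S (u ++ v) x z ↔ ∃ y, DG S u x y ∧ DG S v y z := by
  induction u generalizing x with
  | nil =>
    show DG S v x z ↔ ∃ y, x = y ∧ DG S v y z
    simp
  | cons b u ih =>
    cases b
    · show (∃ y, addR S x x y ∧ DG S (u ++ v) y z) ↔
        ∃ y, (∃ t, addR S x x t ∧ DG S u t y) ∧ DG S v y z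
      simp only [ih]
      constructor
      · rintro ⟨t, h1, y, h2, h3⟩
        exact ⟨y, ⟨t, h1, h2⟩, h3⟩
      · rintro ⟨y, ⟨t, h1, h2⟩, h3⟩
        exact ⟨t, h1, y, h2, h3⟩
    · show (∃ a y, addR S x x a ∧ succR S a y ∧ DG S (u ++ v) y z) ↔
        ∃ y, (∃ a t, addR S x x a ∧ succR S a t ∧ DG S u t y) ∧ DG S v y z
      simp only [ih]
      constructor
      · rintro ⟨a, t, h1, h1', y, h2, h3⟩
        exact ⟨y, ⟨a, t, h1, h1', h2⟩, h3⟩
      · rintro ⟨y, ⟨a, t, h1, h1', h2⟩, h3⟩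
        exact ⟨a, t, h1, h1', y, h2, h3⟩

theorem DG_ex (hq : QM S) (u : List Bool) (x : M) : ∃ y, DG S u x y := by
  induction u generalizing x with
  | nil => exact ⟨x, rfl⟩
  | cons b u ih =>
    cases b
    · obtain ⟨t, ht⟩ := hq.add_tot x x
      obtain ⟨y, hy⟩ := ih t
      exact ⟨y, t, ht, hy⟩
    · obtain ⟨t, ht⟩ := hq.add_tot x x
      obtain ⟨t', ht'⟩ := hq.succ_tot t
      obtain ⟨y, hy⟩ := ih t'
      exact ⟨y, t, t', ht, ht', hy⟩

/-- Appending the digits of a standard string is the concatenation with this string. -/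
theorem conc_DG {cE a0 sC : ℕ} (h : SMax S cE a0 sC) (hq : QM S) (v : List Bool) {x y z : M}
    (hy : IsN S (codeS v) y) (hd : DG S v x z) : concR S x y z := by
  induction v using List.reverseRecOn generalizing y z with
  | nil =>
    have h1 : x = z := hd
    rw [← h1]
    exact h.conc0 x y hy
  | append_singleton v b ih =>
    obtain ⟨y0, hy0, hyd⟩ := (isN_append hq v [b] y).1 hy
    obtain ⟨z0, hz0, hzd⟩ := (DG_append v [b] x z).1 hd
    have h1 := ih hy0 hz0
    cases b
    · obtain ⟨w, hw, hw'⟩ := hyd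
      obtain ⟨w1, hw1, hw1'⟩ := hzd
      have e1 : w = y := hw'
      have e2 : w1 = z := hw1'
      rw [← e1, ← e2]
      exact h.concD _ _ _ _ _ h1 hw hw1
    · obtain ⟨w, y1, hw, hs, hw'⟩ := hyd
      obtain ⟨w1, z1, hw1, hs1, hw1'⟩ := hzd
      have e1 : y1 = y := hw'
      have e2 : z1 = z := hw1'
      rw [← e1, ← e2]
      exact h.concE _ _ _ _ _ _ _ h1 hw hw1 hs hs1

end

/-- The digits of the code of `T + Con_T (q)` after those of the numeral of `q`. -/
def clW (T : List AFm) : List Bool :=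
  encode (num (cdL T)) ++ conS ++ encodeL T

theorem encodeL_clW (T : List AFm) (q : ℕ) :
    encodeL (Con T q :: T) = encode (num q) ++ clW T := by
  show encode (Con T q) ++ encodeL T = _
  rw [encode_Con]
  unfold clW cdL
  simp only [List.append_assoc]

theorem num_cl (T : List AFm) (q : ℕ) :
    num (cdL (Con T q :: T)) = digF (clW T) (num (codeS (encode (num q)))) := by
  unfold cdL
  rw [encodeL_clW, num_codeS_append]

theorem NumC_cl {sC : ℕ} {V G H K : AFm} (x y z : ℕ) :
    subst (xi sC V G H K) (clX x y z) = ap clF [x, y, z] := by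
  show rename (ext ![x, y, z]) clF = rename _ clF
  refine rename_congr (P := fun i => i < 3) ?_ ?_
  · have h := xi_good sC (V := bot) (G := bot) (H := bot) (K := bot) trivial trivial trivial
      trivial .cl
    exact h
  · intro i hi
    interval_cases i <;> rfl

variable (cE sC : ℕ) (T : List AFm) (hT : ∀ φ ∈ BaseA cE sC, φ ∈ T) (hc : ∀ φ ∈ T, Closed φ)
include hT hc

/-- Short proofs of `cl (a, 2 ^ n, b)`, where `b` is the code of `T + Con_T (2 ^ n)`. -/
theorem fam_cl : ∃ C, ∀ n, Pv {ψ | ψ ∈ T} (C * (n + 1) ^ 2)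
    (alls 3 (imp (ap (num (2 ^ n)) [0]) (imp (ap (num (cdL (Con T (2 ^ n) :: T))) [1])
      (imp (ap (num (cdL T)) [2]) (ap clF [2, 0, 1]))))) := by
  obtain ⟨C0, h0⟩ := fam_nu cE sC T hT hc
  obtain ⟨C1, h1⟩ := fam cE sC T hT hc
    (φ := imp (alls 2 (imp (GX 0) (imp (HX 1) (nuX 0 1))))
      (alls 3 (imp (GX 0) (imp (ap (digX (clW T) (HX 0)) [1]) (imp (isNX (cdL T) 2)
        (clX 2 0 1)))))) (by
    intro M _ S hS hq _ e
    have hH : FVs (fun i => i < 1) (HX 0) := by
      intro k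
      change Fin 1 at k
      fin_cases k
      exact Nat.zero_lt_one
    simp only [alls, sat_all, sat_imp, NumB_satG, NumB_satH, NumC_satNu, sat_ap, sat_isNX,
      sat_clX, sat_digX S (clW T) hH, scons]
    rintro h a b q hq' ⟨z, hz, hd⟩ ha
    have hz' : HR S z := hz
    have hn : nuR S q z := h z q hq' hz'
    obtain ⟨zz, hzz⟩ := isN_ex hq (codeS (encode (num (cdL T))))
    have hnn : nuR S a zz := nu_codes hS hq (cdL T) ha hzz
    unfold clW at hd
    rw [DG_append, ] at hd
    obtain ⟨t2, hd1, hd2⟩ := hd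
    rw [DG_append] at hd1
    obtain ⟨t1, hd0, hd1⟩ := hd1
    obtain ⟨w, hw⟩ := isN_ex hq (codeS conS)
    exact hS.clA a q z zz t1 w t2 b (lst_codes hS hq T ha) hn hnn (conc_DG hS hq _ hzz hd0) hw
      (conc_DG hS hq _ hw hd1) (conc_DG hS hq _ ha hd2))
  refine ⟨2 * (C1 * 100000) + C0, fun n => ?_⟩
  have hn := h1 bot (num (2 ^ n)) (num (codeS (encode (num (2 ^ n))))) bot trivial
    (FVs_num _) (FVs_num _) trivial
  have hg : Good arX (xi sC bot (num (2 ^ n)) (num (codeS (encode (num (2 ^ n))))) bot) :=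
    xi_good sC trivial (FVs_num _) (FVs_num _) trivial
  have e1 : subst (xi sC bot (num (2 ^ n)) (num (codeS (encode (num (2 ^ n))))) bot)
      (imp (alls 2 (imp (GX 0) (imp (HX 1) (nuX 0 1))))
      (alls 3 (imp (GX 0) (imp (ap (digX (clW T) (HX 0)) [1]) (imp (isNX (cdL T) 2)
        (clX 2 0 1)))))) =
      imp (alls 2 (imp (ap (num (2 ^ n)) [0]) (imp (ap (num (codeS (encode (num (2 ^ n))))) [1])
        nuF)))
      (alls 3 (imp (ap (num (2 ^ n)) [0]) (imp (ap (num (cdL (Con T (2 ^ n) :: T))) [1])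
      (imp (ap (num (cdL T)) [2]) (ap clF [2, 0, 1]))))) := by
    rw [subst.eq_4, subst_alls, subst_alls]
    simp only [subst.eq_4, subst_ap hg, NumB_G _ _ _ _ _ (FVs_num _),
      NumB_H _ _ _ _ _ (FVs_num _), NumC_isNX sC hg, NumC_nu sC hg, NumC_cl,
      subst_digX (τ := xi sC bot (num (2 ^ n)) (num (codeS (encode (num (2 ^ n))))) bot)
        rfl rfl, NumB_ap0 (FVs_num _), num_cl]
  rw [e1] at hn
  refine (hn.mp' (h0 n)).mono ?_
  have hlen : 1 + len (bot : AFm) + len (num (2 ^ n)) +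
      len (num (codeS (encode (num (2 ^ n))))) + len (bot : AFm) ≤ 100000 * (n + 1) := by
    have l2 := NumC_len_pow n
    have l3 : len (bot : AFm) = 4 := rfl
    have l4 := len_num (codeS (encode (num (2 ^ n))))
    have l5 := NumC_size_codeS (encode (num (2 ^ n)))
    rw [length_encode] at l5
    omega
  have h5 : n + 1 ≤ (n + 1) ^ 2 := Nat.le_self_pow (by norm_num) _
  calc 2 * (C1 * _) + C0 * (n + 1) ^ 2
      ≤ 2 * (C1 * (100000 * (n + 1))) + C0 * (n + 1) ^ 2 := by
        refine Nat.add_le_add_right (Nat.mul_le_mul_left _ (Nat.mul_le_mul_left _ hlen)) _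
    _ ≤ 2 * (C1 * (100000 * (n + 1) ^ 2)) + C0 * (n + 1) ^ 2 := by
        refine Nat.add_le_add_right (Nat.mul_le_mul_left _ (Nat.mul_le_mul_left _
          (Nat.mul_le_mul_left _ h5))) _
    _ = _ := by ring

end Pool.Agent.MycT
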