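import Pool.Agent.MycT.Dfam

set_option autoImplicit false

/-!
# From large scales to small ones, inside the theory
-/

namespace Pool.Agent.MycT

open Pool.Agent.Myc Fm

theorem has_dbl {M : Type} {S : XStr M} {cE a0 sC : ℕ} (h : SMax S cE a0 sC) (hq : QM S)
    {T : List AFm} (hd : dblA ∈ T) {a : M} (ha : IsN S (cdL T) a) :
    ∃ a1 a2 d t, lstR S a1 ∧ lstR S a2 ∧ IsN S (cd dblA) d ∧ concR S a1 d t ∧
      concR S t a2 a := by
  obtain ⟨T1, T2, rfl⟩ := List.append_of_mem hd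
  obtain ⟨a1, h1⟩ := isN_ex hq (cdL T1)
  obtain ⟨a2, h2⟩ := isN_ex hq (cdL T2)
  obtain ⟨d, h3⟩ := isN_ex hq (cd dblA)
  obtain ⟨t, h4⟩ := isN_ex hq (codeS (encodeL T1 ++ encode dblA))
  refine ⟨a1, a2, d, t, lst_codes h hq T1 h1, lst_codes h hq T2 h2, h3,
    conc_codes h hq _ _ h1 h3 h4, conc_codes h hq _ _ h4 h2 ?_⟩
  have e : encodeL T1 ++ encode dblA ++ encodeL T2 = encodeL (T1 ++ dblA :: T2) := by
    simp [encodeL]
  rw [e]
  exact ha

/-- The formula `Con`, with predicate variables for the numerals of the bound and of the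
theory. -/
def conY (P B : Fin 8) : YFm :=
  ex (and (pY P 0) (ex (and (pY B 0) (ex (and (incl (emb (num 16)))
    (neg (incl (ppX 1 2 0))))))))

/-- The implication which gives the theorem. -/
def cY (c0 k0 : ℕ) : YFm :=
  imp (alls 2 (imp (pY 6 0) (imp (pY 0 1) (incl (e2X 0 1)))))
  (imp (alls 2 (imp (pY 7 0) (imp (pY 1 1) (incl (e2X 0 1)))))
  (imp (alls 2 (imp (pY 6 0) (imp (pY 7 1) (ex (incl (addX 1 0 2))))))
  (imp (alls 3 (imp (pY 0 0) (imp (pY 2 1) (imp (ap (incl (emb (num c0))) [2])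
    (incl (clX 2 0 1))))))
  (imp (alls 3 (imp (pY 1 0) (imp (pY 3 1) (imp (ap (incl (emb (num c0))) [2])
    (incl (clX 2 0 1))))))
  (imp (alls 3 (imp (pY 4 0) (imp (pY 5 1) (imp (pY 7 2) (incl (deltaX k0))))))
  (imp (ex (pY 0 0)) (imp (ex (pY 1 0)) (imp (ex (pY 2 0)) (imp (ex (pY 4 0))
    (imp (ex (pY 6 0)) (imp (ex (pY 7 0))
      (imp (conY 5 3) (conY 4 2)))))))))))))

theorem sat_conY {M : Type} (S : YStr M) (P B : Fin 8) (e : ℕ → M) :
    Sat S (conY P B) e ↔ ∃ x, pR S P x ∧ ∃ b, pR S B b ∧ ∃ y, IsN (red S) 16 y ∧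
      ¬ ppR (red S) b x y := by
  unfold conY
  simp only [sat_ex, sat_and, sat_neg, sat_pY, sat_incl, sat_ppX, intA_num, scons]

theorem cY_sem {M : Type} [Nonempty M] (S : YStr M) {cE a0 sC : ℕ} {T : List AFm}
    (h : SMax (red S) cE a0 sC) (hq : QM (red S)) (hs : ScalM (red S)) (hd : dblA ∈ T)
    (e : ℕ → M) : Sat S (cY (cdL T) (sC * ((encodeL T).length + 1))) e := by
  unfold cY
  simp only [sat_imp, sat_all, alls, sat_pY, sat_ap, sat_ex, sat_incl, sat_addX, sat_e2X,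
    sat_clX, sat_deltaX, sat_conY, intA_num, scons, List.getD_cons_zero]
  rintro h1 h2 h3 h4 h5 h6 ⟨q, hq0⟩ ⟨q', hq1⟩ ⟨b, hb⟩ ⟨x, hx⟩ ⟨n, hn⟩ ⟨N, hN⟩
    ⟨x', hx', b', hb', y, hy, hp⟩
  refine ⟨x, hx, b, hb, y, hy, fun hpp => hp ?_⟩
  obtain ⟨a, ha⟩ := isN_ex hq (cdL T)
  obtain ⟨s, hs0⟩ := isN_ex hq (sC * ((encodeL T).length + 1))
  obtain ⟨y', hy', hpp'⟩ := hs s n N q q' a b b' x x'
    (sz_codes h hq (encodeL T) ha ((isN_iff_isU hq _ _).1 hs0)) (h1 q n hn hq0)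
    (h2 q' N hN hq1) (h3 N n hn hN) (h4 a b q hq0 hb ha) (h5 a b' q' hq1 hb' ha)
    (has_dbl h hq hd ha) (h6 N x' x hx hx' hN s hs0) ⟨y, hy, hpp⟩
  rw [isN_un hq hy hy']
  exact hpp'

theorem subst_cY (sC c0 k0 : ℕ) (P : Fin 8 → AFm) (hP : ∀ i, FVs (fun j => j < 1) (P i)) :
    subst (yi sC P) (cY c0 k0) =
  imp (alls 2 (imp (ap (P 6) [0]) (imp (ap (P 0) [1]) exp2F)))
  (imp (alls 2 (imp (ap (P 7) [0]) (imp (ap (P 1) [1]) exp2F)))
  (imp (alls 2 (imp (ap (P 6) [0]) (imp (ap (P 7) [1]) (ex (addA 1 0 2)))))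
  (imp (alls 3 (imp (ap (P 0) [0]) (imp (ap (P 2) [1]) (imp (ap (num c0) [2])
    (ap clF [2, 0, 1])))))
  (imp (alls 3 (imp (ap (P 1) [0]) (imp (ap (P 3) [1]) (imp (ap (num c0) [2])
    (ap clF [2, 0, 1])))))
  (imp (alls 3 (imp (ap (P 4) [0]) (imp (ap (P 5) [1]) (imp (ap (P 7) [2])
    (subst (xi sC bot bot bot bot) (deltaX k0))))))
  (imp (ex (P 0)) (imp (ex (P 1)) (imp (ex (P 2)) (imp (ex (P 4))
    (imp (ex (P 6)) (imp (ex (P 7))
      (imp (ex (and (P 5) (ex (and (P 3) (ex (and (num 16) (neg (ap provF [1, 2, 0]))))))))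
        (ex (and (P 4) (ex (and (P 2) (ex (and (num 16)
          (neg (ap provF [1, 2, 0])))))))))))))))))))) := by
  have hg := yi_good sC hP
  have hx := xb_good sC
  have e1 : ∀ x y z, subst (yi sC P) (incl (clX x y z)) = ap clF [x, y, z] := fun x y z => by
    rw [subst_yi_incl sC P hP, NumC_cl]
  have e2 : ∀ x y z, subst (yi sC P) (incl (addX x y z)) = addA x y z := fun x y z => by
    rw [subst_yi_incl sC P hP, NumB_add]
  have e3 : subst (yi sC P) (incl (e2X 0 1)) = exp2F := by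
    rw [subst_yi_incl sC P hP, NumC_e2 sC hx]
  have e4 : ∀ k, subst (yi sC P) (incl (emb (num k))) = num k := fun k => by
    rw [subst_yi_incl sC P hP, subst_xb_emb]
  have e5 : subst (yi sC P) (incl (ppX 1 2 0)) = ap provF [1, 2, 0] := by
    rw [subst_yi_incl sC P hP]
    show rename (ext ![1, 2, 0]) provF = rename _ provF
    refine rename_congr provF_fv ?_
    intro i hi
    interval_cases i <;> rfl
  unfold cY conY
  simp only [subst.eq_4, subst_alls, subst_ex, subst_and, subst_neg, subst_ap hg,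
    subst_yi_pY sC P hP, NumB_ap0 (hP _), e1, e2, e3, e4, e5,
    subst_yi_incl sC P hP (deltaX k0)]

theorem len_numc (k : ℕ) : len (num k) ≤ 200 * (k + 1) :=
  (len_num k).trans (Nat.mul_le_mul_left _ (Nat.add_le_add_right (NumB_size_le k) 1))

theorem length_encodeL_cl (T : List AFm) (n : ℕ) :
    (encodeL (Con T (2 ^ n) :: T)).length ≤ 200 * (n + 2) + (clW T).length := by
  rw [encodeL_clW, List.length_append, length_encode]
  exact Nat.add_le_add_right (NumC_len_pow n) _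

variable (cE sC : ℕ) (T : List AFm) (hT : ∀ φ ∈ BaseA cE sC, φ ∈ T) (hc : ∀ φ ∈ T, Closed φ)
include hT hc

/-- Inside the theory: consistency of `T + Con_T (2 ^ N)` up to `M` gives consistency of
`T + Con_T (2 ^ n)` up to `m`. -/
theorem con_scale (hd : dblA ∈ T) (hs : scalA sC ∈ T) : ∃ C, ∀ n m N M, n ≤ N →
    m + sC * ((encodeL T).length + 1) * ((N + 1) * (N + 1)) ≤ M →
    Pv {ψ | ψ ∈ T} (C * (m + M + N + 1) ^ 6)
      (imp (Con (Con T (2 ^ N) :: T) M) (Con (Con T (2 ^ n) :: T) m)) := by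
  obtain ⟨C0, h0⟩ := famY cE sC T hT hc [scalXs] (by
      intro φ hφ
      rw [List.mem_singleton] at hφ
      subst hφ
      exact scalXs_closed) (by
      intro φ hφ
      rw [List.mem_singleton] at hφ
      subst hφ
      exact hs) (φ := cY (cdL T) (sC * ((encodeL T).length + 1)))
    (fun M _ S hS hq _ hE e =>
      cY_sem S hS hq (scal_sem _ (hE scalXs (List.mem_singleton.2 rfl))) hd e)
  obtain ⟨C1, h1⟩ := fam_e2 cE sC T hT hc
  obtain ⟨C2, h2⟩ := fam_leU cE sC T hT hc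
  obtain ⟨C3, h3⟩ := fam_cl cE sC T hT hc
  obtain ⟨C4, h4⟩ := fam_delta cE sC T hT hc (sC * ((encodeL T).length + 1))
  obtain ⟨C5, h5⟩ := fam_exNum cE sC T hT hc
  obtain ⟨C6, h6⟩ := fam_exU cE sC T hT hc
  obtain ⟨W, hW⟩ : ∃ W, W = (clW T).length + 402 := ⟨_, rfl⟩
  obtain ⟨D, hD⟩ : ∃ D, D = C0 * (1601 * W) + C1 + C2 + C3 + C4 + C5 * W ^ 2 + C6 := ⟨_, rfl⟩
  refine ⟨8191 * D, ?_⟩
  intro n m N M hn hm
  obtain ⟨X, hX⟩ : ∃ X, X = m + M + N + 1 := ⟨_, rfl⟩
  rw [← hX]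
  have x1 : m + 1 ≤ X := by omega
  have x2 : M + 1 ≤ X := by omega
  have x3 : N + 1 ≤ X := by omega
  have x4 : n + 1 ≤ X := by omega
  have x0 : 1 ≤ X := by omega
  have y2 : X ^ 2 ≤ X ^ 6 := Nat.pow_le_pow_right x0 (by norm_num)
  have y4 : X ≤ X ^ 6 := Nat.le_self_pow (by norm_num) _
  have w1 : X ≤ W * X := Nat.le_mul_of_pos_left _ (by omega)
  have w2 : 402 * X + (clW T).length * X = W * X := by rw [hW]; ring
  have w3 : (clW T).length ≤ (clW T).length * X := Nat.le_mul_of_pos_right _ x0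
  -- the formulas
  obtain ⟨P, hP⟩ : ∃ P : Fin 8 → AFm, P = ![num (2 ^ n), num (2 ^ N),
    num (cdL (Con T (2 ^ n) :: T)), num (cdL (Con T (2 ^ N) :: T)), num m, num M, Uf n,
    Uf N] := ⟨_, rfl⟩
  have hPf : ∀ i, FVs (fun j => j < 1) (P i) := by
    rw [hP]
    intro i
    fin_cases i
    · exact FVs_num _
    · exact FVs_num _
    · exact FVs_num _
    · exact FVs_num _
    · exact FVs_num _
    · exact FVs_num _
    · exact Uf_fv _
    · exact Uf_fv _
  have hcl : ∀ k, k + 1 ≤ X → (encodeL (Con T (2 ^ k) :: T)).length + 2 ≤ W * X := by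
    intro k hk
    have := length_encodeL_cl T k
    omega
  have hl : ∀ i, len (P i) ≤ 200 * (W * X) := by
    rw [hP]
    intro i
    fin_cases i
    · show len (num (2 ^ n)) ≤ _
      have := NumC_len_pow n; omega
    · show len (num (2 ^ N)) ≤ _
      have := NumC_len_pow N; omega
    · show len (num (cdL (Con T (2 ^ n) :: T))) ≤ _
      have := len_num_cdL (Con T (2 ^ n) :: T)
      have := hcl n x4; omega
    · show len (num (cdL (Con T (2 ^ N) :: T))) ≤ _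
      have := len_num_cdL (Con T (2 ^ N) :: T)
      have := hcl N x3; omega
    · show len (num m) ≤ _
      have := len_numc m; omega
    · show len (num M) ≤ _
      have := len_numc M; omega
    · show len (Uf n) ≤ _
      have := len_Uf n; omega
    · show len (Uf N) ≤ _
      have := len_Uf N; omega
  obtain ⟨Z, hZ⟩ : ∃ Z, Z = D * X ^ 6 := ⟨_, rfl⟩
  have z0 : C0 * (1 + ∑ i, len (P i)) ≤ Z := by
    have h5 : ∑ i, len (P i) ≤ ∑ _i : Fin 8, 200 * (W * X) := Finset.sum_le_sum fun i _ => hl i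
    have h6 : ∑ _i : Fin 8, 200 * (W * X) = 1600 * (W * X) := by
      rw [Finset.sum_const, Finset.card_univ, Fintype.card_fin, smul_eq_mul]
      ring
    calc C0 * (1 + ∑ i, len (P i)) ≤ C0 * (1601 * (W * X)) :=
          Nat.mul_le_mul_left _ (by omega)
      _ ≤ C0 * (1601 * (W * X ^ 6)) :=
          Nat.mul_le_mul_left _ (Nat.mul_le_mul_left _ (Nat.mul_le_mul_left _ y4))
      _ = C0 * (1601 * W) * X ^ 6 := by ring
      _ ≤ Z := by rw [hZ]; exact Nat.mul_le_mul_right _ (by omega)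
  have zz : ∀ (E k : ℕ), E ≤ D → k + 1 ≤ X → E * (k + 1) ^ 2 ≤ Z := by
    intro E k hE hk
    calc E * (k + 1) ^ 2 ≤ D * X ^ 6 :=
          Nat.mul_le_mul hE ((Nat.pow_le_pow_left hk 2).trans y2)
      _ = Z := hZ.symm
  have zn : ∀ k, Nat.size k + 1 ≤ W * X → C5 * (Nat.size k + 1) ^ 2 ≤ Z := by
    intro k hk
    calc C5 * (Nat.size k + 1) ^ 2 ≤ C5 * (W * X) ^ 2 :=
          Nat.mul_le_mul_left _ (Nat.pow_le_pow_left hk 2)
      _ = C5 * W ^ 2 * X ^ 2 := by ring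
      _ ≤ C5 * W ^ 2 * X ^ 6 := Nat.mul_le_mul_left _ y2
      _ ≤ Z := by rw [hZ]; exact Nat.mul_le_mul_right _ (by omega)
  have g0 := (h0 P hPf).mono z0
  rw [subst_cY sC _ _ P hPf, hP] at g0
  have g1 := (h1 n).mono (zz C1 n (by omega) x4)
  have g2 := (h1 N).mono (zz C1 N (by omega) x3)
  have g3 := (h2 n N hn).mono (zz C2 N (by omega) x3)
  have g4 := (h3 n).mono (zz C3 n (by omega) x4)
  have g5 := (h3 N).mono (zz C3 N (by omega) x3)
  have g6 := (h4 m M N hm).mono (show C4 * (m + M + N + 1) ^ 6 ≤ Z by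
    rw [← hX, hZ]; exact Nat.mul_le_mul_right _ (by omega))
  have g7 := (h5 (2 ^ n)).mono (zn _ (by rw [Nat.size_pow]; omega))
  have g8 := (h5 (2 ^ N)).mono (zn _ (by rw [Nat.size_pow]; omega))
  have g9 := (h5 (cdL (Con T (2 ^ n) :: T))).mono (zn _ (by
    have e1 := NumC_size_codeS (encodeL (Con T (2 ^ n) :: T))
    have e2 := hcl n x4
    unfold cdL
    omega))
  have g10 := (h5 m).mono (zn _ (by have := NumB_size_le m; omega))
  have g11 := (h6 n).mono (zz C6 n (by omega) x4)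
  have g12 := (h6 N).mono (zz C6 N (by omega) x3)
  have g := (((((((((((g0.mp' g1).mp' g2).mp' g3).mp' g4).mp' g5).mp' g6).mp' g7).mp' g8).mp'
    g9).mp' g10).mp' g11).mp' g12
  have e1 : 8191 * D * X ^ 6 = 8191 * Z := by rw [hZ]; ring
  rw [e1]
  refine Pv.mono (φ := imp (Con (Con T (2 ^ N) :: T) M) (Con (Con T (2 ^ n) :: T) m)) g ?_
  omega

end Pool.Agent.MycT
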