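import Pool.Agent.Myc.FamB
import Pool.Agent.Myc.NumC

set_option autoImplicit false

/-!
# Monotonicity of provability as an axiom, and the descent from larger to smaller scales
-/

namespace Pool.Agent.MycT

open Pool.Agent.Myc Fm

/-- If `y` has a proof of length at most `x` from `a` then it has a proof of length at most `2 x`:
the variables are `0 = x`, `1 = 2 x`, `2 = a`, `3 = y`. -/
def dblA : AFm :=
  alls 4 (imp (addA 0 0 1) (imp (ap provF [2, 0, 3]) (ap provF [2, 1, 3])))

theorem dblA_closed : Closed dblA := by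
  refine closed_alls ⟨?_, ?_, ?_⟩
  · exact (StdB_addA _ 0 0 1).2 ⟨by omega, by omega, by omega⟩
  · refine FVs_ap provF_fv _ _ rfl ?_
    intro i hi
    simp only [List.mem_cons, List.not_mem_nil, or_false] at hi
    omega
  · refine FVs_ap provF_fv _ _ rfl ?_
    intro i hi
    simp only [List.mem_cons, List.not_mem_nil, or_false] at hi
    omega

theorem proves_mono {T : Set AFm} {m m' : ℕ} {φ : AFm} (h : Proves T m φ) (hm : m ≤ m') :
    Proves T m' φ := by
  obtain ⟨l, h1, h2⟩ := h
  exact ⟨l, h1, h2.trans hm⟩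

theorem dblA_true : ∀ e, Sat NN dblA e := by
  unfold dblA
  rw [sat_alls]
  intro e h1 h2
  have h1' : e 0 + e 0 = e 1 := h1
  rw [sat_ap, sat_provF] at h2 ⊢
  obtain ⟨T, φ, h3, h4, h5⟩ := h2
  refine ⟨T, φ, h3, h4, proves_mono h5 ?_⟩
  show e 0 ≤ e 1
  omega

/-- The formula `Con`, with `G` for the numeral of the bound and `H` for the numeral of the
theory. -/
def conX : XFm :=
  ex (and (GX 0) (ex (and (HX 0) (ex (and (KX 0) (neg (ap (emb provF) [1, 2, 0])))))))

/-- The same for the double of the bound. -/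
def conX2 : XFm :=
  ex (and (ex (and (GX 0) (addX 0 0 1)))
    (ex (and (HX 0) (ex (and (KX 0) (neg (ap (emb provF) [1, 2, 0])))))))

theorem con_sem (M : Type) [Nonempty M] (S : XStr M) (h : ∀ e, Sat S (emb dblA) e) (e : ℕ → M) :
    Sat S (imp conX2 conX) e := by
  have hd : ∀ (a x y z : M) (f g : ℕ → M), addR S x x y → f 0 = a → f 1 = x → f 2 = z →
      g 0 = a → g 1 = y → g 2 = z → Sat S (emb provF) f → Sat S (emb provF) g := by
    intro a x y z f g hxy f0 f1 f2 g0 g1 g2 hp
    have h1 : ∀ e, Sat (pull arA S x embT) dblA e := fun e =>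
      (sat_subst S x AxB_good_embT dblA e).1 (h e)
    have h2 := (sat_alls _ _ _).1 h1 (fun i => if i = 0 then x else if i = 1 then y else
      if i = 2 then a else z)
    have h3 : Sat (pull arA S x embT) (addA 0 0 1) (fun i => if i = 0 then x else if i = 1 then y
        else if i = 2 then a else z) := by
      have h4 : Sat S (emb (addA 0 0 1)) (fun i => if i = 0 then x else if i = 1 then y
        else if i = 2 then a else z) := (intA_add 0 0 1 _).2 hxy
      exact (sat_subst S x AxB_good_embT _ _).1 h4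
    have h5 := h2 h3
    rw [sat_imp, sat_ap, sat_ap] at h5
    unfold emb at hp ⊢
    rw [sat_subst S x AxB_good_embT] at hp ⊢
    refine (sat_congr _ provF_fv ?_).1 (h5 ((sat_congr _ provF_fv ?_).1 hp))
    · intro i hi
      interval_cases i
      · exact g0.symm
      · exact g1.symm
      · exact g2.symm
    · intro i hi
      interval_cases i
      · exact f0
      · exact f1
      · exact f2
  unfold conX conX2
  simp only [sat_imp, sat_ex, sat_and, sat_neg, NumB_satG, NumB_satH, NumB_satK,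
    NumB_satAdd, sat_ap, scons]
  rintro ⟨x', ⟨x, hx, hxx⟩, a, ha, y, hy, hn⟩
  refine ⟨x, hx, a, ha, y, hy, fun hp => hn ?_⟩
  exact hd a x x' y _ _ hxx rfl rfl rfl rfl rfl rfl hp

theorem subst_conX (sC : ℕ) {G H K : AFm} (hG : FVs (fun i => i < 1) G)
    (hH : FVs (fun i => i < 1) H) (hK : FVs (fun i => i < 1) K) :
    subst (xi sC bot G H K) conX =
      ex (and G (ex (and H (ex (and K (neg (ap provF [1, 2, 0]))))))) := by
  have hg := xi_good sC (V := bot) trivial hG hH hK
  simp only [conX, subst_ex, subst_and, subst_neg, NumB_G _ _ _ _ _ hG, NumB_H _ _ _ _ _ hH,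
    NumB_K _ _ _ _ _ hK, subst_ap hg, subst_xi_emb, NumB_ap0 hG, NumB_ap0 hH, NumB_ap0 hK]

theorem subst_conX2 (sC : ℕ) {G H K : AFm} (hG : FVs (fun i => i < 1) G)
    (hH : FVs (fun i => i < 1) H) (hK : FVs (fun i => i < 1) K) :
    subst (xi sC bot G H K) conX2 =
      ex (and (ex (and G (addA 0 0 1))) (ex (and H (ex (and K (neg (ap provF [1, 2, 0]))))))) := by
  have hg := xi_good sC (V := bot) trivial hG hH hK
  simp only [conX2, subst_ex, subst_and, subst_neg, NumB_G _ _ _ _ _ hG, NumB_H _ _ _ _ _ hH,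
    NumB_K _ _ _ _ _ hK, NumB_add, subst_ap hg, subst_xi_emb, NumB_ap0 hG, NumB_ap0 hH,
    NumB_ap0 hK]

theorem len_num_cdL (T : List AFm) : len (num (cdL T)) ≤ 200 * ((encodeL T).length + 2) := by
  refine (len_num _).trans ?_
  have := NumC_size_codeS (encodeL T)
  unfold cdL
  omega

/-- From the consistency up to `2 ^ (j + 1)` to the consistency up to `2 ^ j`. -/
theorem con_step : ∃ C, ∀ (T : List AFm) (j : ℕ) (A : Set AFm), dblA ∈ A →
    Pv A (C * (j + (encodeL T).length + 1)) (imp (Con T (2 ^ (j + 1))) (Con T (2 ^ j))) := by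
  obtain ⟨C, hC⟩ := fam0 [dblA] (by
    intro φ hφ
    rw [List.mem_singleton] at hφ
    subst hφ
    exact dblA_closed) (φ := imp conX2 conX) (by
      intro M _ S h e
      exact con_sem M S (fun e => h dblA (List.mem_singleton.2 rfl) e) e) 0
  refine ⟨C * 2100, fun T j A hA => ?_⟩
  have h := hC bot (num (2 ^ j)) (num (cdL T)) (num 16) A trivial (FVs_num _) (FVs_num _)
    (FVs_num _) (by
      intro ψ hψ
      rw [List.mem_singleton] at hψ
      subst hψ
      exact hA)
  have e1 : subst (xi 0 bot (num (2 ^ j)) (num (cdL T)) (num 16)) (imp conX2 conX) =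
      imp (Con T (2 ^ (j + 1))) (Con T (2 ^ j)) := by
    show imp (subst _ _) (subst _ _) = _
    rw [subst_conX 0 (FVs_num _) (FVs_num _) (FVs_num _),
      subst_conX2 0 (FVs_num _) (FVs_num _) (FVs_num _), ← num_even (by positivity)]
    have e2 : 2 * 2 ^ j = 2 ^ (j + 1) := by ring
    rw [e2]
    rfl
  rw [e1] at h
  refine h.mono ?_
  rw [Nat.mul_assoc]
  refine Nat.mul_le_mul_left _ ?_
  have h1 := NumC_len_pow j
  have h2 := len_num_cdL T
  have h3 : len (num 16) ≤ 1200 := by
    refine (len_num 16).trans ?_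
    have : Nat.size 16 = 5 := by decide
    omega
  have h4 : len (bot : AFm) = 4 := rfl
  omega

/-- The consistency up to `2 ^ N` gives the consistency up to `2 ^ n` for all `n ≤ N`. -/
theorem con_down : ∃ C, ∀ (T : List AFm) (n N : ℕ) (A : Set AFm), dblA ∈ A →
    Con T (2 ^ N) ∈ A → n ≤ N →
    Pv A (C * (((encodeL T).length + 1) * (N + 1) ^ 2)) (Con T (2 ^ n)) := by
  obtain ⟨C, hC⟩ := con_step
  refine ⟨4 * C, fun T n N A hA hN hn => ?_⟩
  have key : ∀ k, k ≤ N → Pv A ((2 * k + 1) * (C * (N + (encodeL T).length + 1)))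
      (Con T (2 ^ (N - k))) := by
    intro k
    induction k with
    | zero =>
      intro _
      refine (Pv.hyp hN).mono ?_
      have h1 := (hC T N A hA).len_le
      have h2 : len (imp (Con T (2 ^ (N + 1))) (Con T (2 ^ N))) =
        len (Con T (2 ^ (N + 1))) + len (Con T (2 ^ N)) + 4 := rfl
      show len (Con T (2 ^ N)) ≤ _
      omega
    | succ k ih =>
      intro hk
      have h1 := hC T (N - (k + 1)) A hA
      have h3 : N - (k + 1) + 1 = N - k := by omega
      rw [h3] at h1
      have h2 := (h1.mono (Nat.mul_le_mul_left C (show N - (k + 1) + (encodeL T).length + 1 ≤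
        N + (encodeL T).length + 1 by omega))).mp' (ih (by omega))
      refine h2.mono (le_of_eq ?_)
      ring
  have h := key (N - n) (by omega)
  have h3 : N - (N - n) = n := by omega
  rw [h3] at h
  refine h.mono ?_
  have h4 : 2 * (N - n) + 1 ≤ 2 * (N + 1) := by omega
  have h5 : N + (encodeL T).length + 1 ≤ ((encodeL T).length + 1) * (N + 1) := by
    have : ((encodeL T).length + 1) * (N + 1) =
      (encodeL T).length * N + (N + (encodeL T).length + 1) := by ring
    omega
  calc _ ≤ 2 * (N + 1) * (C * (((encodeL T).length + 1) * (N + 1))) :=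
        Nat.mul_le_mul h4 (Nat.mul_le_mul_left _ h5)
    _ = 2 * C * (((encodeL T).length + 1) * (N + 1) ^ 2) := by ring
    _ ≤ _ := Nat.mul_le_mul_right _ (by omega)

theorem plen_append' {R : Type} {ar : R → ℕ} (l l' : List (Fm R ar)) :
    plen (l ++ l') = plen l + plen l' := by
  simp [plen]

/-- A contradiction from `T + Con_T (2 ^ n)` gives one from `T + Con_T (2 ^ N)` for `N ≥ n` which
is longer by at most a constant times `|T| N ^ 2`. -/
theorem con_descend : ∃ C, ∀ (T : List AFm) (n N x : ℕ), dblA ∈ T → n ≤ N →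
    Proves {ψ | ψ ∈ Con T (2 ^ n) :: T} x bot →
    Proves {ψ | ψ ∈ Con T (2 ^ N) :: T}
      (x + C * (((encodeL T).length + 1) * (N + 1) ^ 2)) bot := by
  obtain ⟨C, hC⟩ := con_down
  refine ⟨C, fun T n N x hd hn hx => ?_⟩
  rw [proves_iff] at hx ⊢
  obtain ⟨l, h1, h2⟩ := hx
  obtain ⟨l0, h3, h4⟩ := hC T n N {ψ | ψ ∈ Con T (2 ^ N) :: T}
    (List.mem_cons_of_mem _ hd) List.mem_cons_self hn
  obtain ⟨l2, h5, h6, h7⟩ := h1.absorb h3 (by
    intro ψ hψ _
    rcases List.mem_cons.1 hψ with rfl | hψ
    · exact Or.inr List.mem_cons_self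
    · exact Or.inl (List.mem_cons_of_mem _ hψ))
  obtain ⟨l3, h8, h9⟩ := h5.of_mem (h7 bot List.mem_cons_self)
  refine ⟨l3, h8, h9.trans ?_⟩
  rw [plen_append']
  omega

end Pool.Agent.MycT
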