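import Pool.Agent.MycT.Cl

set_option autoImplicit false

/-!
# Short proofs of the inequality between the bounds
-/

namespace Pool.Agent.MycT

open Pool.Agent.Myc Fm

/-- `x₀ + s (x₂ + 1) ^ 2 ≤ x₁` for `s = k0`. -/
def deltaX (k0 : ℕ) : XFm :=
  alN 10 (imp (isNX k0 10) (exL [11, 12, 13, 14, 15] (andL [succX 2 11, mulX 11 11 12,
    mulX 10 12 13, addX 0 13 14, addX 14 15 1])))

theorem sat_deltaX {M : Type} (S : XStr M) (k0 : ℕ) (e : ℕ → M) :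
    Sat S (deltaX k0) e ↔ ∀ s, IsN S k0 s → ∃ N1 N2 t u v, succR S (e 2) N1 ∧ mulR S N1 N1 N2 ∧
      mulR S s N2 t ∧ addR S (e 0) t u ∧ addR S u v (e 1) := by
  unfold deltaX
  simp only [sat_alN, sat_imp, sat_exL_cons, sat_exL_nil, sat_andL,
    List.forall_mem_cons, List.not_mem_nil, false_imp_iff, implies_true, and_true,
    sat_isNX, sat_succX, sat_mulX, sat_addX]
  simp [Function.update]

/-- The implication from the facts on numerals to the inequality. -/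
def dY (k0 : ℕ) : YFm :=
  imp (all (imp (pY 0 0) (pY 1 0)))
  (imp (all (imp (pY 2 0) (pY 3 0)))
  (imp (alls 3 (imp (ap (ex (and (pY 4 0) (incl (succX 0 1)))) [0])
    (imp (ap (ex (and (pY 4 0) (incl (succX 0 1)))) [1]) (imp (incl (mulX 0 1 2)) (pY 5 2)))))
  (imp (alls 3 (imp (ap (incl (emb (Uf k0))) [0]) (imp (pY 5 1) (imp (incl (mulX 0 1 2))
    (pY 6 2)))))
  (imp (alls 3 (imp (pY 1 0) (imp (pY 6 1) (imp (incl (addX 0 1 2)) (pY 7 2)))))
  (imp (alls 2 (imp (pY 7 0) (imp (pY 3 1) (ex (incl (addX 1 0 2))))))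
  (alls 3 (imp (pY 0 0) (imp (pY 2 1) (imp (pY 4 2) (incl (deltaX k0)))))))))))

theorem dY_sem (k0 : ℕ) {M : Type} [Nonempty M] (S : YStr M) (hq : QM (red S)) (e : ℕ → M) :
    Sat S (dY k0) e := by
  unfold dY
  simp only [sat_imp, sat_all, alls, sat_pY, sat_ap, sat_ex, sat_and, sat_incl, sat_succX,
    sat_mulX, sat_addX, sat_deltaX, scons, List.getD_cons_zero]
  intro h1 h2 h3 h4 h5 h6 N x' x hx hx' hN s hs
  obtain ⟨N1, hN1⟩ := hq.succ_tot N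
  obtain ⟨N2, hN2⟩ := hq.mul_tot N1 N1
  have p5 := h3 N2 N1 N1 ⟨N, hN, hN1⟩ ⟨N, hN, hN1⟩ hN2
  obtain ⟨t, ht⟩ := hq.mul_tot s N2
  have p6 := h4 t N2 s (by
    have hsu := (isN_iff_isU hq k0 s).1 hs
    have h7 := (sat_Uf (red S) k0 s (fun _ => s)).2 hsu
    refine (sat_congr _ (FVs_subst AxB_good_embT (Uf_fv k0)) ?_).1 h7
    intro i hi
    have : i = 0 := by omega
    subst this
    rfl) p5 ht
  obtain ⟨u, hu⟩ := hq.add_tot x t
  have p7 := h5 u t x (h1 x hx) p6 hu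
  obtain ⟨v, hv⟩ := h6 x' u p7 (h2 x' hx')
  exact ⟨N1, N2, t, u, v, hN1, hN2, ht, hu, hv⟩

theorem subst_xb_emb (sC : ℕ) (φ : AFm) : subst (xi sC bot bot bot bot) (emb φ) = φ :=
  subst_xi_emb sC bot bot bot bot φ

theorem subst_dY (sC k0 : ℕ) (P : Fin 8 → AFm) (hP : ∀ i, FVs (fun j => j < 1) (P i)) :
    subst (yi sC P) (dY k0) =
      imp (all (imp (P 0) (P 1)))
      (imp (all (imp (P 2) (P 3)))
      (imp (alls 3 (imp (ap (ex (and (P 4) (succA 0 1))) [0])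
        (imp (ap (ex (and (P 4) (succA 0 1))) [1]) (imp (mulA 0 1 2) (ap (P 5) [2])))))
      (imp (alls 3 (imp (ap (Uf k0) [0]) (imp (ap (P 5) [1]) (imp (mulA 0 1 2)
        (ap (P 6) [2])))))
      (imp (alls 3 (imp (ap (P 1) [0]) (imp (ap (P 6) [1]) (imp (addA 0 1 2) (ap (P 7) [2])))))
      (imp (alls 2 (imp (ap (P 7) [0]) (imp (ap (P 3) [1]) (ex (addA 1 0 2)))))
      (alls 3 (imp (ap (P 0) [0]) (imp (ap (P 2) [1]) (imp (ap (P 4) [2])
        (subst (xi sC bot bot bot bot) (deltaX k0))))))))))) := by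
  have hg := yi_good sC hP
  have e1 : ∀ x y z, subst (yi sC P) (incl (mulX x y z)) = mulA x y z := fun x y z => by
    rw [subst_yi_incl sC P hP, NumB_mul]
  have e2 : ∀ x y z, subst (yi sC P) (incl (addX x y z)) = addA x y z := fun x y z => by
    rw [subst_yi_incl sC P hP, NumB_add]
  have e3 : ∀ x y, subst (yi sC P) (incl (succX x y)) = succA x y := fun x y => by
    rw [subst_yi_incl sC P hP, NumB_succ]
  have e4 : subst (yi sC P) (incl (emb (Uf k0))) = Uf k0 := by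
    rw [subst_yi_incl sC P hP, subst_xb_emb]
  unfold dY
  simp only [subst.eq_4, subst.eq_5, subst_alls, subst_ex, subst_and, subst_ap hg,
    subst_yi_pY sC P hP, NumB_ap0 (hP _), e1, e2, e3, e4, subst_yi_incl sC P hP (deltaX k0)]

variable (cE sC : ℕ) (T : List AFm) (hT : ∀ φ ∈ BaseA cE sC, φ ∈ T) (hc : ∀ φ ∈ T, Closed φ)
include hT hc

/-- Short proofs of the inequality between the bounds. -/
theorem fam_delta (k0 : ℕ) : ∃ C, ∀ m M N, m + k0 * ((N + 1) * (N + 1)) ≤ M →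
    Pv {ψ | ψ ∈ T} (C * (m + M + N + 1) ^ 6)
      (alls 3 (imp (ap (num m) [0]) (imp (ap (num M) [1]) (imp (ap (Uf N) [2])
        (subst (xi sC bot bot bot bot) (deltaX k0)))))) := by
  obtain ⟨C0, h0⟩ := famY cE sC T hT hc [] (by simp) (by simp) (φ := dY k0)
    (fun M _ S _ hq _ _ e => dY_sem k0 S hq e)
  obtain ⟨C1, h1⟩ := fam_numU cE sC T hT hc
  obtain ⟨C2, h2⟩ := fam_mulU cE sC T hT hc
  obtain ⟨C3, h3⟩ := fam_addU cE sC T hT hc
  obtain ⟨C4, h4⟩ := fam_leU cE sC T hT hc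
  refine ⟨127 * (C0 * 5000 + C1 + 64 * (k0 + 1) ^ 3 * C2 + 4 * C3 + C4), ?_⟩
  intro m M N hm
  obtain ⟨X, hX⟩ : ∃ X, X = m + M + N + 1 := ⟨_, rfl⟩
  rw [← hX]
  have x1 : m + 1 ≤ X := by omega
  have x2 : M + 1 ≤ X := by omega
  have x3 : N + 1 ≤ X := by omega
  have x4 : (N + 1) * (N + 1) ≤ X ^ 2 := by
    rw [sq]
    exact Nat.mul_le_mul x3 x3
  have x0 : 1 ≤ X := by omega
  have y1 : 1 ≤ X ^ 6 := Nat.one_le_pow _ _ x0
  have y2 : X ^ 2 ≤ X ^ 6 := Nat.pow_le_pow_right x0 (by norm_num)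
  have y3 : X ^ 3 ≤ X ^ 6 := Nat.pow_le_pow_right x0 (by norm_num)
  have y4 : X ≤ X ^ 6 := Nat.le_self_pow (by norm_num) _
  have y5 : X ≤ X ^ 2 := Nat.le_self_pow (by norm_num) _
  -- the formulas
  obtain ⟨P, hP⟩ : ∃ P : Fin 8 → AFm, P = ![num m, Uf m, num M, Uf M, Uf N,
    Uf ((N + 1) * (N + 1)), Uf (k0 * ((N + 1) * (N + 1))),
    Uf (m + k0 * ((N + 1) * (N + 1)))] := ⟨_, rfl⟩
  have hPf : ∀ i, FVs (fun j => j < 1) (P i) := by
    rw [hP]
    intro i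
    fin_cases i
    · exact FVs_num _
    · exact Uf_fv _
    · exact FVs_num _
    · exact Uf_fv _
    · exact Uf_fv _
    · exact Uf_fv _
    · exact Uf_fv _
    · exact Uf_fv _
  have hnum : ∀ k, len (num k) ≤ 200 * (k + 1) := fun k =>
    (len_num k).trans (Nat.mul_le_mul_left _ (Nat.add_le_add_right (NumB_size_le k) 1))
  have hl : ∀ i, len (P i) ≤ 200 * X ^ 2 := by
    rw [hP]
    intro i
    fin_cases i
    · show len (num m) ≤ _
      have := hnum m; omega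
    · show len (Uf m) ≤ _
      have := len_Uf m; omega
    · show len (num M) ≤ _
      have := hnum M; omega
    · show len (Uf M) ≤ _
      have := len_Uf M; omega
    · show len (Uf N) ≤ _
      have := len_Uf N; omega
    · show len (Uf ((N + 1) * (N + 1))) ≤ _
      have := len_Uf ((N + 1) * (N + 1)); omega
    · show len (Uf (k0 * ((N + 1) * (N + 1)))) ≤ _
      have := len_Uf (k0 * ((N + 1) * (N + 1))); omega
    · show len (Uf (m + k0 * ((N + 1) * (N + 1)))) ≤ _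
      have := len_Uf (m + k0 * ((N + 1) * (N + 1))); omega
  have hlen : 1 + ∑ i, len (P i) ≤ 5000 * X ^ 6 := by
    have h5 : ∑ i, len (P i) ≤ ∑ _i : Fin 8, 200 * X ^ 2 := Finset.sum_le_sum fun i _ => hl i
    have h6 : ∑ _i : Fin 8, 200 * X ^ 2 = 1600 * X ^ 2 := by
      rw [Finset.sum_const, Finset.card_univ, Fintype.card_fin, smul_eq_mul]
      ring
    omega
  obtain ⟨Z, hZ⟩ : ∃ Z, Z = (C0 * 5000 + C1 + 64 * (k0 + 1) ^ 3 * C2 + 4 * C3 + C4) * X ^ 6 :=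
    ⟨_, rfl⟩
  have z0 : C0 * (1 + ∑ i, len (P i)) ≤ Z := by
    calc C0 * (1 + ∑ i, len (P i)) ≤ C0 * (5000 * X ^ 6) := Nat.mul_le_mul_left _ hlen
      _ = C0 * 5000 * X ^ 6 := by ring
      _ ≤ Z := by rw [hZ]; exact Nat.mul_le_mul_right _ (by omega)
  have z1 : ∀ k, k + 1 ≤ X → C1 * (k + 1) ^ 3 ≤ Z := by
    intro k hk
    calc C1 * (k + 1) ^ 3 ≤ C1 * X ^ 6 :=
          Nat.mul_le_mul_left _ ((Nat.pow_le_pow_left hk 3).trans y3)
      _ ≤ Z := by rw [hZ]; exact Nat.mul_le_mul_right _ (by omega)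
  have z2 : C2 * ((N + 1 + 1) * (N + 1 + 1)) ^ 3 ≤ Z := by
    have h5 : (N + 1 + 1) * (N + 1 + 1) ≤ 4 * X ^ 2 := by
      calc (N + 1 + 1) * (N + 1 + 1) ≤ (2 * X) * (2 * X) :=
            Nat.mul_le_mul (by omega) (by omega)
        _ = 4 * X ^ 2 := by ring
    calc C2 * ((N + 1 + 1) * (N + 1 + 1)) ^ 3 ≤ C2 * (4 * X ^ 2) ^ 3 :=
          Nat.mul_le_mul_left _ (Nat.pow_le_pow_left h5 3)
      _ = 64 * 1 ^ 3 * C2 * X ^ 6 := by ring
      _ ≤ 64 * (k0 + 1) ^ 3 * C2 * X ^ 6 := by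
        refine Nat.mul_le_mul_right _ (Nat.mul_le_mul_right _ (Nat.mul_le_mul_left _
          (Nat.pow_le_pow_left (by omega) 3)))
      _ ≤ Z := by rw [hZ]; exact Nat.mul_le_mul_right _ (by omega)
  have z3 : C2 * ((k0 + 1) * ((N + 1) * (N + 1) + 1)) ^ 3 ≤ Z := by
    have h5 : (N + 1) * (N + 1) + 1 ≤ 2 * X ^ 2 := by omega
    calc C2 * ((k0 + 1) * ((N + 1) * (N + 1) + 1)) ^ 3 ≤ C2 * ((k0 + 1) * (2 * X ^ 2)) ^ 3 :=
          Nat.mul_le_mul_left _ (Nat.pow_le_pow_left (Nat.mul_le_mul_left _ h5) 3)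
      _ = 8 * (k0 + 1) ^ 3 * C2 * X ^ 6 := by ring
      _ ≤ 64 * (k0 + 1) ^ 3 * C2 * X ^ 6 := by
        refine Nat.mul_le_mul_right _ (Nat.mul_le_mul_right _ (Nat.mul_le_mul_right _
          (by norm_num)))
      _ ≤ Z := by rw [hZ]; exact Nat.mul_le_mul_right _ (by omega)
  have z4 : C3 * (m + k0 * ((N + 1) * (N + 1)) + 1) ^ 2 ≤ Z := by
    calc C3 * (m + k0 * ((N + 1) * (N + 1)) + 1) ^ 2 ≤ C3 * X ^ 2 :=
          Nat.mul_le_mul_left _ (Nat.pow_le_pow_left (by omega) 2)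
      _ ≤ C3 * X ^ 6 := Nat.mul_le_mul_left _ y2
      _ ≤ Z := by rw [hZ]; exact Nat.mul_le_mul_right _ (by omega)
  have z5 : C4 * (M + 1) ^ 2 ≤ Z := by
    calc C4 * (M + 1) ^ 2 ≤ C4 * X ^ 2 :=
          Nat.mul_le_mul_left _ (Nat.pow_le_pow_left (by omega) 2)
      _ ≤ C4 * X ^ 6 := Nat.mul_le_mul_left _ y2
      _ ≤ Z := by rw [hZ]; exact Nat.mul_le_mul_right _ (by omega)
  have g0 := (h0 P hPf).mono z0
  rw [subst_dY sC k0 P hPf, hP] at g0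
  have g1 := (h1 m).mono (z1 m x1)
  have g2 := (h1 M).mono (z1 M x2)
  have g3 := (h2 (N + 1) (N + 1)).mono z2
  have g4 := (h2 k0 ((N + 1) * (N + 1))).mono z3
  have g5 := (h3 m (k0 * ((N + 1) * (N + 1)))).mono z4
  have g6 := (h4 (m + k0 * ((N + 1) * (N + 1))) M hm).mono z5
  have g7 := (((((g0.mp' g1).mp' g2).mp' g3).mp' g4).mp' g5).mp' g6
  refine g7.mono ?_
  have e1 : 127 * (C0 * 5000 + C1 + 64 * (k0 + 1) ^ 3 * C2 + 4 * C3 + C4) * X ^ 6 = 127 * Z := by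
    rw [hZ]; ring
  rw [e1]
  omega

end Pool.Agent.MycT
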