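import Pool.Agent.Myc.NumB
import Pool.Agent.Myc.NumC

set_option autoImplicit false

/-!
# From dyadic to unary numerals by proofs of quadratic length
-/

namespace Pool.Agent.MycT

open Pool.Agent.Myc Fm

/-- The implication from the dyadic to the unary numeral. -/
def nuI (k : ℕ) : AFm := all (imp (num k) (Uf k))

theorem len_nuI (k : ℕ) : len (nuI k) ≤ 308 * (k + 1) := by
  have h1 : len (nuI k) = len (num k) + len (Uf k) + 4 + 4 := rfl
  have h2 := len_num k
  have h3 := len_Uf k
  have h4 := NumB_size_le k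
  omega

variable (cE sC : ℕ) (T : List AFm) (hT : ∀ φ ∈ BaseA cE sC, φ ∈ T) (hc : ∀ φ ∈ T, Closed φ)
include hT hc

theorem fam_numU2 : ∃ C, ∀ k, Pv {ψ | ψ ∈ T} (C * (k + 1) ^ 2) (nuI k) := by
  obtain ⟨C0, h0⟩ := NumB_base cE sC T hT hc
  obtain ⟨C1, h1⟩ := NumB_stepE cE sC T hT hc
  obtain ⟨C2, h2⟩ := NumB_stepO cE sC T hT hc
  obtain ⟨C3, h3⟩ := fam_addU cE sC T hT hc
  obtain ⟨E, hE⟩ : ∃ E, E = C0 + C1 + C2 + 4 * C3 + 1600 := ⟨_, rfl⟩
  refine ⟨E, fun k => ?_⟩
  induction k using Nat.strong_induction_on with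
  | _ k ih =>
    obtain ⟨m, hm⟩ := Nat.even_or_odd' k
    have hb : ∀ x, x ≤ C1 + C2 → x * (m + 1) + C3 * (m + m + 1) ^ 2 + 1600 * (m + 1) ≤
        E * (m + 1) ^ 2 := by
      intro x hx
      have e1 : m + 1 ≤ (m + 1) ^ 2 := Nat.le_self_pow (by norm_num) _
      have e2 : (m + m + 1) ^ 2 ≤ 4 * (m + 1) ^ 2 := by nlinarith
      have e3 : C3 * (m + m + 1) ^ 2 ≤ 4 * C3 * (m + 1) ^ 2 := by
        calc C3 * (m + m + 1) ^ 2 ≤ C3 * (4 * (m + 1) ^ 2) := Nat.mul_le_mul_left _ e2
          _ = _ := by ring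
      have e4 : x * (m + 1) ≤ (C1 + C2) * (m + 1) ^ 2 := Nat.mul_le_mul hx e1
      have e5 : E * (m + 1) ^ 2 = C0 * (m + 1) ^ 2 + (C1 + C2) * (m + 1) ^ 2 +
          4 * C3 * (m + 1) ^ 2 + 1600 * (m + 1) ^ 2 := by
        rw [hE]; ring
      have e6 : 0 ≤ C0 * (m + 1) ^ 2 := Nat.zero_le _
      omega
    rcases hm with hm | hm
    · rcases Nat.eq_zero_or_pos m with h | h
      · subst h
        simp only [mul_zero] at hm
        subst hm
        refine h0.mono ?_
        rw [hE]
        omega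
      · have ihm := ih m (by omega)
        have h5 := ((h1 m h).mp (h3 m m)).mp ihm
        have e0 : (imp (all (imp (num m) (Uf m))) (all (imp (num (2 * m)) (Uf (m + m)))) : AFm) =
            imp (nuI m) (nuI (2 * m)) := by
          rw [two_mul]; rfl
        have e1 : (all (imp (num (2 * m)) (Uf (m + m))) : AFm) = nuI k := by
          rw [hm, two_mul]; rfl
        rw [e0, e1] at h5
        refine h5.mono ?_
        have e2 : len (imp (nuI m) (nuI (2 * m))) = len (nuI m) + len (nuI (2 * m)) + 4 := rfl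
        have e3 := len_nuI m
        have e4 := len_nuI (2 * m)
        have e5 := hb C1 (by omega)
        have e6 : E * (k + 1) ^ 2 = 2 * (E * (m + 1) ^ 2) + E * (2 * (m * m) - 1) := by
          obtain ⟨l, rfl⟩ : ∃ l, m = l + 1 := ⟨m - 1, by omega⟩
          have e7 : 2 * ((l + 1) * (l + 1)) - 1 = 2 * (l * l) + 4 * l + 1 := by
            have : 2 * ((l + 1) * (l + 1)) = 2 * (l * l) + 4 * l + 2 := by ring
            omega
          rw [e7, hm]
          ring
        rw [e2, ← hm, e6]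
        rw [← hm] at e4
        have e8 : k = 2 * m := hm
        omega
    · have ihm := ih m (by omega)
      have h5 := ((h2 m).mp (h3 m m)).mp ihm
      have e0 : (imp (all (imp (num m) (Uf m)))
          (all (imp (num (2 * m + 1)) (Uf (m + m + 1)))) : AFm) =
          imp (nuI m) (nuI (2 * m + 1)) := by
        rw [two_mul]; rfl
      have e1 : (all (imp (num (2 * m + 1)) (Uf (m + m + 1))) : AFm) = nuI k := by
        rw [hm, two_mul]; rfl
      rw [e0, e1] at h5
      refine h5.mono ?_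
      have e2 : len (imp (nuI m) (nuI (2 * m + 1))) =
        len (nuI m) + len (nuI (2 * m + 1)) + 4 := rfl
      have e3 := len_nuI m
      have e4 := len_nuI (2 * m + 1)
      have e5 := hb C2 (by omega)
      have e6 : E * (k + 1) ^ 2 = 4 * (E * (m + 1) ^ 2) := by
        rw [hm]; ring
      rw [e2, ← hm, e6]
      rw [← hm] at e4
      have e8 : k = 2 * m + 1 := hm
      omega

end Pool.Agent.MycT
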