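import Pool.Agent.MycT.Strs
import Pool.Agent.MycT.Quad

set_option autoImplicit false

/-!
# A sentence which says that the theory extended by it has a short contradiction
-/

namespace Pool.Agent.MycT

open Pool.Agent.Myc Fm

/-- `x₀` is the number `z` of a formula, and for the string `u` of the numeral of `z` the string
`u z κ` is the string of a theory with a contradiction of length at most `2 ^ m`. -/
def bet (κ m : ℕ) : AFm :=
  exL [10, 11, 12, 13, 14, 15, 16] (andL [ap nuF [0, 10], ap concF [10, 0, 11],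
    ap (num κ) [12], ap concF [11, 12, 13], ap (num m) [14], ap exp2F [14, 15], ap (num 16) [16],
    ap provF [13, 15, 16]])

/-- The diagonal sentence. -/
def sig (κ m : ℕ) : AFm := ex (and (num (cd (bet κ m))) (bet κ m))

/-- The string of `ex (and φ ψ)` is the string of `φ` followed by the string of `ψ` and this
string. -/
def tailS : List Bool :=
  encode bot ++ [false, true, true, false] ++ [false, true, true, false] ++ encode bot ++
    [false, true, true, false] ++ exS

/-- The parameter `κ` for the theory `S`. -/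
def kap (S : List AFm) : ℕ := codeS (tailS ++ encodeL S)

theorem encode_exand (φ ψ : AFm) :
    encode (ex (and φ ψ)) = encode φ ++ encode ψ ++ tailS := by
  rw [encode_ex, encode_and]
  unfold andS tailS
  simp only [List.append_assoc]

theorem encodeL_sig (S : List AFm) (κ m : ℕ) :
    encodeL (sig κ m :: S) =
      encode (num (cd (bet κ m))) ++ encode (bet κ m) ++ (tailS ++ encodeL S) := by
  show encode (sig κ m) ++ encodeL S = _
  unfold sig
  rw [encode_exand]
  simp only [List.append_assoc]

theorem bet_fv (κ m : ℕ) : FVs (fun i => i < 1) (bet κ m) := by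
  simp [bet, FVs_exL, FVs_andL, StdB_num, StdB_ap StdB_nuF, StdB_ap StdB_concF,
    StdB_ap StdB_exp2F, StdB_ap StdB_provF]

theorem sig_closed (κ m : ℕ) : Closed (sig κ m) := by
  unfold Closed sig
  rw [FVs_ex, FVs_and]
  refine ⟨(FVs_num _).mono ?_, (bet_fv κ m).mono ?_⟩
  · intro i hi; left; omega
  · intro i hi; left; omega

theorem sat_bet (κ m : ℕ) (e : ℕ → ℕ) : Sat NN (bet κ m) e ↔
    ∃ v, Cc (codeS (encode (num (e 0)))) (e 0) v ∧ ∃ a, Cc v κ a ∧
      ∃ (T : List AFm) (φ : AFm), a = cdL T ∧ 16 = cd φ ∧ Proves {ψ | ψ ∈ T} (2 ^ m) φ := by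
  unfold bet
  simp only [sat_exL_cons, sat_exL_nil, sat_andL, List.forall_mem_cons, List.not_mem_nil,
    false_imp_iff, implies_true, and_true, sat_ap, StdA_sat_nuF, sat_concF, sat_num, sat_exp2F,
    sat_provF]
  simp [Function.update]

/-- The diagonal sentence is true if and only if the theory extended by it has a short
contradiction. -/
theorem sat_sig (S : List AFm) (m : ℕ) (e : ℕ → ℕ) :
    Sat NN (sig (kap S) m) e ↔ Proves {ψ | ψ ∈ sig (kap S) m :: S} (2 ^ m) bot := by
  unfold sig
  rw [sat_ex]
  have h1 : ∀ z, Sat NN (and (num (cd (bet (kap S) m))) (bet (kap S) m)) (scons z e) ↔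
      z = cd (bet (kap S) m) ∧ Proves {ψ | ψ ∈ sig (kap S) m :: S} (2 ^ m) bot := by
    intro z
    rw [sat_and, sat_num, sat_bet]
    refine and_congr_right fun hz => ?_
    have hz' : scons z e 0 = codeS (encode (bet (kap S) m)) := hz
    constructor
    · rintro ⟨v, hv, a, ha, T, φ, hT, hφ, hp⟩
      rw [hz', Cc_codeS] at hv
      rw [hv] at ha
      unfold kap at ha
      rw [Cc_codeS] at ha
      have e1 : cdL T = cdL (sig (kap S) m :: S) := by
        rw [← hT, ha]
        unfold cdL
        rw [encodeL_sig]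
        rfl
      have e2 := cdL_inj e1
      have e3 : φ = bot := by
        refine cd_inj ?_
        rw [← hφ, cd_bot]
      rw [e2, e3] at hp
      exact hp
    · intro hp
      refine ⟨codeS (encode (num (codeS (encode (bet (kap S) m)))) ++
        encode (bet (kap S) m)), ?_, cdL (sig (kap S) m :: S), ?_,
        sig (kap S) m :: S, bot, rfl, cd_bot.symm, hp⟩
      · rw [hz', Cc_codeS]
      · unfold kap
        rw [Cc_codeS]
        unfold cdL
        rw [← kap, encodeL_sig]
        rfl
  constructor
  · rintro ⟨z, hz⟩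
    exact ((h1 z).1 hz).2
  · intro hp
    exact ⟨cd (bet (kap S) m), (h1 _).2 ⟨rfl, hp⟩⟩

/-- It is consistent with a true theory that there is no short contradiction. -/
theorem not_proves_sig (S : List AFm) (hS : ∀ φ ∈ S, ∀ e, Sat NN φ e) (m : ℕ) :
    ¬ Proves {ψ | ψ ∈ sig (kap S) m :: S} (2 ^ m) bot := by
  intro h
  have h1 : ∀ φ ∈ ({ψ | ψ ∈ sig (kap S) m :: S} : Set AFm), ∀ e, Sat NN φ e := by
    intro φ hφ e
    rcases List.mem_cons.1 hφ with rfl | hφ
    · exact (sat_sig S m e).2 h
    · exact hS φ hφ e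
  exact consistent_of_model NN h1 (2 ^ m) h

/-! ### The diagonal sentence in the language with predicate variables -/

/-- The formula `bet`, with the predicate variable `4` for the numeral of `m`. -/
def betY (κ : ℕ) : YFm :=
  exL [10, 11, 12, 13, 14, 15, 16] (andL [incl (nuX 0 10), incl (concX 10 0 11),
    incl (isNX κ 12), incl (concX 11 12 13), pY 4 14, incl (e2X 14 15), incl (isNX 16 16),
    incl (ppX 13 15 16)])

theorem sat_betY {M : Type} (S : YStr M) (κ : ℕ) (e : ℕ → M) : Sat S (betY κ) e ↔
    ∃ u v k a x q y, nuR (red S) (e 0) u ∧ concR (red S) u (e 0) v ∧ IsN (red S) κ k ∧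
      concR (red S) v k a ∧ pR S 4 x ∧ e2R (red S) x q ∧ IsN (red S) 16 y ∧
      ppR (red S) a q y := by
  unfold betY
  simp only [sat_exL_cons, sat_exL_nil, sat_andL, List.forall_mem_cons, List.not_mem_nil,
    false_imp_iff, implies_true, and_true, sat_incl, sat_pY, NumC_satNu, sat_concX, sat_isNX,
    sat_e2X, sat_ppX]
  simp [Function.update]

theorem NumT_nu {sC : ℕ} {V G H K : AFm} (x y : ℕ) :
    subst (xi sC V G H K) (nuX x y) = ap nuF [x, y] := by
  show rename (ext ![x, y]) nuF = rename _ nuF
  refine rename_congr (P := fun i => i < 2) StdB_nuF ?_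
  intro i hi
  interval_cases i <;> rfl

theorem NumT_e2 {sC : ℕ} {V G H K : AFm} (x y : ℕ) :
    subst (xi sC V G H K) (e2X x y) = ap exp2F [x, y] := by
  show rename (ext ![x, y]) exp2F = rename _ exp2F
  refine rename_congr (P := fun i => i < 2) StdB_exp2F ?_
  intro i hi
  interval_cases i <;> rfl

theorem NumT_pp {sC : ℕ} {V G H K : AFm} (x y z : ℕ) :
    subst (xi sC V G H K) (ppX x y z) = ap provF [x, y, z] := by
  show rename (ext ![x, y, z]) provF = rename _ provF
  refine rename_congr (P := fun i => i < 3) StdB_provF ?_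
  intro i hi
  interval_cases i <;> rfl

theorem subst_betY (sC κ m : ℕ) (P : Fin 8 → AFm) (hP : ∀ i, FVs (fun j => j < 1) (P i))
    (h4 : P 4 = num m) : subst (yi sC P) (betY κ) = bet κ m := by
  have hg := yi_good sC hP
  have hx := xb_good sC
  have e1 : ∀ x y, subst (yi sC P) (incl (nuX x y)) = ap nuF [x, y] := fun x y => by
    rw [subst_yi_incl sC P hP, NumT_nu]
  have e2 : ∀ x y z, subst (yi sC P) (incl (concX x y z)) = ap concF [x, y, z] :=
    fun x y z => by rw [subst_yi_incl sC P hP, NumT_conc]
  have e3 : ∀ k x, subst (yi sC P) (incl (isNX k x)) = ap (num k) [x] := fun k x => by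
    rw [subst_yi_incl sC P hP, NumC_isNX sC hx]
  have e4 : ∀ x y, subst (yi sC P) (incl (e2X x y)) = ap exp2F [x, y] := fun x y => by
    rw [subst_yi_incl sC P hP, NumT_e2]
  have e5 : ∀ x y z, subst (yi sC P) (incl (ppX x y z)) = ap provF [x, y, z] :=
    fun x y z => by rw [subst_yi_incl sC P hP, NumT_pp]
  unfold betY bet
  simp only [exL, andL, subst_exN hg, subst_and, e1, e2, e3, e4, e5, subst_yi_pY sC P hP, h4]

theorem len_bet (κ : ℕ) : ∃ C, ∀ m, len (bet κ m) ≤ C * (Nat.size m + 1) := by
  obtain ⟨C, hC⟩ := len_subst_le (R' := AR) (ar' := arA) (betY κ)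
  obtain ⟨B, hB⟩ : ∃ B, B = ∑ r, len (yi 0 (fun _ => bot) r) := ⟨_, rfl⟩
  refine ⟨C * (1 + B + 200), fun m => ?_⟩
  obtain ⟨P, hP⟩ : ∃ P : Fin 8 → AFm, P = fun i => if i = 4 then num m else bot := ⟨_, rfl⟩
  have hPf : ∀ i, FVs (fun j => j < 1) (P i) := by
    rw [hP]
    intro i
    show FVs _ (if i = 4 then num m else bot)
    split_ifs
    · exact FVs_num _
    · trivial
  have h4 : P 4 = num m := by rw [hP]; rfl
  rw [← subst_betY 0 κ m P hPf h4]
  refine (hC (yi 0 P)).trans ?_
  rw [Nat.mul_assoc]
  refine Nat.mul_le_mul_left _ ?_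
  have h5 : ∑ r, len (yi 0 P r) ≤ B + len (num m) := by
    rw [hB]
    have h6 : ∀ r : RY, len (yi 0 P r) ≤ len (yi 0 (fun _ => bot) r) +
        (if r = RY.p 4 then len (num m) else 0) := by
      intro r
      cases r with
      | x r => exact Nat.le_add_right _ _
      | p i =>
        rw [hP]
        show len (if i = 4 then num m else bot) ≤ len (bot : AFm) +
          (if RY.p i = RY.p 4 then len (num m) else 0)
        by_cases hi : i = 4
        · subst hi
          rw [if_pos rfl, if_pos rfl]
          omega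
        · rw [if_neg hi]
          omega
    refine (Finset.sum_le_sum fun r _ => h6 r).trans ?_
    rw [Finset.sum_add_distrib, Finset.sum_ite_eq' Finset.univ (RY.p 4) (fun _ => len (num m)),
      if_pos (Finset.mem_univ _)]
  have h7 := len_num m
  have h8 : (1 + B + 200) * (Nat.size m + 1) = (1 + B) * (Nat.size m + 1) +
    200 * (Nat.size m + 1) := by ring
  have h9 : 1 + B ≤ (1 + B) * (Nat.size m + 1) := Nat.le_mul_of_pos_right _ (by omega)
  omega

theorem len_exand (φ ψ : AFm) : len (ex (and φ ψ)) = len φ + len ψ + 40 := by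
  rw [← length_encode, encode_exand, List.length_append, List.length_append, length_encode,
    length_encode]
  rfl

theorem len_sig (κ : ℕ) : ∃ C, ∀ m, len (sig κ m) ≤ C * (Nat.size m + 1) := by
  obtain ⟨C, hC⟩ := len_bet κ
  refine ⟨201 * C + 440, fun m => ?_⟩
  have h1 := len_exand (num (cd (bet κ m))) (bet κ m)
  have h2 := len_num (cd (bet κ m))
  have h3 := NumC_size_codeS (encode (bet κ m))
  rw [length_encode] at h3
  have h4 := hC m
  have h5 : len (sig κ m) = len (ex (and (num (cd (bet κ m))) (bet κ m))) := rfl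
  have h6 : (201 * C + 440) * (Nat.size m + 1) = 201 * (C * (Nat.size m + 1)) +
    440 * (Nat.size m + 1) := by ring
  have h7 : cd (bet κ m) = codeS (encode (bet κ m)) := rfl
  rw [h7] at h2
  rw [h5, h1, h6, h7]
  omega

end Pool.Agent.MycT
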