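import Pool.Agent.MycT.Cl

set_option autoImplicit false

/-!
# Short proofs of facts on the numerals of arbitrary strings
-/

namespace Pool.Agent.MycT

open Pool.Agent.Myc Fm

theorem size_two_mul {k : ℕ} (hk : 0 < k) : Nat.size (2 * k) = Nat.size k + 1 := by
  have e : Nat.bit false k = 2 * k := by
    rw [Nat.bit_val]
    rfl
  have h := Nat.size_bit (b := false) (n := k) (by rw [e]; omega)
  rw [e] at h
  exact h

theorem size_two_mul_add {k : ℕ} : Nat.size (2 * k + 1) = Nat.size k + 1 := by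
  have e : Nat.bit true k = 2 * k + 1 := by
    rw [Nat.bit_val]
    rfl
  have h := Nat.size_bit (b := true) (n := k) (by rw [e]; omega)
  rw [e] at h
  exact h

/-- Induction along the digits of a positive number. -/
theorem chain_num {T : Set AFm} {F : ℕ → AFm} {c0 D : ℕ} (h1 : Pv T c0 (F 1))
    (he : ∀ k, 0 < k → Pv T (D * (Nat.size k + 1)) (imp (F k) (F (2 * k))))
    (ho : ∀ k, 0 < k → Pv T (D * (Nat.size k + 1)) (imp (F k) (F (2 * k + 1)))) :
    ∀ k, 0 < k → Pv T (c0 + 2 * D * (Nat.size k + 1) ^ 2) (F k) := by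
  intro k
  induction k using Nat.strong_induction_on with
  | _ k ih =>
    intro hk
    obtain ⟨m, hm⟩ := Nat.even_or_odd' k
    have key : ∀ s : ℕ, 2 * (D * (s + 1)) + (c0 + 2 * D * (s + 1) ^ 2) ≤
        c0 + 2 * D * (s + 1 + 1) ^ 2 := by
      intro s
      have e1 : c0 + 2 * D * (s + 1 + 1) ^ 2 = 2 * (D * (s + 1)) + (c0 + 2 * D * (s + 1) ^ 2) +
          2 * D * (s + 2) := by ring
      omega
    rcases hm with hm | hm
    · have hm0 : 0 < m := by omega
      have h2 := (he m hm0).mp' (ih m (by omega) hm0)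
      rw [hm, size_two_mul hm0]
      exact h2.mono (key _)
    · rcases Nat.eq_zero_or_pos m with h | hm0
      · subst h
        have : k = 1 := by omega
        subst this
        exact h1.mono (by omega)
      · have h2 := (ho m hm0).mp' (ih m (by omega) hm0)
        rw [hm, size_two_mul_add]
        exact h2.mono (key _)

/-- Induction along the symbols of a string. -/
theorem chain_str {T : Set AFm} {F : List Bool → AFm} {c0 D E : ℕ} (h1 : Pv T c0 (F []))
    (hs : ∀ v b, Pv T (D * (v.length + E)) (imp (F v) (F (v ++ [b])))) :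
    ∀ v, Pv T (c0 + 2 * D * (v.length + E) ^ 2) (F v) := by
  intro v
  induction v using List.reverseRecOn with
  | nil => exact h1.mono (by omega)
  | append_singleton v b ih =>
    have h2 := (hs v b).mp' ih
    refine h2.mono ?_
    rw [List.length_append, List.length_singleton]
    generalize v.length = s
    have e1 : c0 + 2 * D * (s + 1 + E) ^ 2 = 2 * (D * (s + E)) + (c0 + 2 * D * (s + E) ^ 2) +
        2 * D * (s + E + 1) := by ring
    omega

variable (cE sC : ℕ) (T : List AFm) (hT : ∀ φ ∈ BaseA cE sC, φ ∈ T) (hc : ∀ φ ∈ T, Closed φ)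
include hT hc

/-- Uniqueness of numerals. -/
theorem fam_unN : ∃ C, ∀ k, 0 < k → Pv {ψ | ψ ∈ T} (C * (Nat.size k + 1) ^ 2)
    (alls 2 (imp (ap (num k) [0]) (imp (ap (num k) [1]) (eq 0 1)))) := by
  obtain ⟨C0, h0⟩ := fam cE sC T hT hc (φ := alls 2 (imp (isNX 1 0) (imp (isNX 1 1) (eq 0 1)))) (by
    intro M _ S _ hq _ e
    simp only [alls, sat_all, sat_imp, sat_isNX, scons]
    intro a b h1 h2
    exact isN_un hq h1 h2)
  obtain ⟨C1, h1⟩ := fam cE sC T hT hc (φ := imp (alls 2 (imp (GX 0) (imp (GX 1) (eq 0 1))))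
      (alls 2 (imp (ap (ex (and (GX 0) (addX 0 0 1))) [0])
        (imp (ap (ex (and (GX 0) (addX 0 0 1))) [1]) (eq 0 1))))) (by
    intro M _ S _ hq _ e
    simp only [alls, sat_all, sat_imp, sat_ap, sat_ex, sat_and, NumB_satG, NumB_satAdd, scons,
      List.getD_cons_zero]
    rintro h a b ⟨x, hx, hx'⟩ ⟨y, hy, hy'⟩
    have e1 : x = y := h y x hx hy
    subst e1
    exact hq.add_un _ _ _ _ hx' hy')
  obtain ⟨C2, h2⟩ := fam cE sC T hT hc (φ := imp (alls 2 (imp (GX 0) (imp (GX 1) (eq 0 1))))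
      (alls 2 (imp (ap (ex (ex (and (GX 0) (and (addX 0 0 1) (succX 1 2))))) [0])
        (imp (ap (ex (ex (and (GX 0) (and (addX 0 0 1) (succX 1 2))))) [1]) (eq 0 1))))) (by
    intro M _ S _ hq _ e
    simp only [alls, sat_all, sat_imp, sat_ap, sat_ex, sat_and, NumB_satG, NumB_satAdd,
      NumB_satSucc, scons, List.getD_cons_zero]
    rintro h a b ⟨u, x, hx, hx', hu⟩ ⟨v, y, hy, hy', hv⟩
    have e1 : x = y := h y x hx hy
    subst e1
    have e2 := hq.add_un _ _ _ _ hx' hy'
    subst e2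
    exact hq.succ_un _ _ _ hu hv)
  refine ⟨17 * C0 + 2 * (300 * (C1 + C2)), ?_⟩
  have hg : ∀ k, Good arX (xi sC bot (num k) bot bot) := fun k =>
    xi_good sC trivial (FVs_num _) trivial trivial
  have hb : Pv {ψ | ψ ∈ T} (17 * C0)
      (alls 2 (imp (ap (num 1) [0]) (imp (ap (num 1) [1]) (eq 0 1)))) := by
    have h := h0 bot bot bot bot trivial trivial trivial trivial
    have hg0 : Good arX (xi sC bot bot bot bot) := xi_good sC trivial trivial trivial trivial
    simp only [subst, subst_alls, NumC_isNX sC hg0] at h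
    refine h.mono ?_
    have : len (bot : AFm) = 4 := rfl
    rw [this]
    omega
  have hl : ∀ k, 1 + len (bot : AFm) + len (num k) + len (bot : AFm) + len (bot : AFm) ≤
      300 * (Nat.size k + 1) := by
    intro k
    have h3 := len_num k
    have h5 : len (bot : AFm) = 4 := rfl
    omega
  have hE : ∀ k, 0 < k → Pv {ψ | ψ ∈ T} (300 * (C1 + C2) * (Nat.size k + 1))
      (imp (alls 2 (imp (ap (num k) [0]) (imp (ap (num k) [1]) (eq 0 1))))
        (alls 2 (imp (ap (num (2 * k)) [0]) (imp (ap (num (2 * k)) [1]) (eq 0 1))))) := by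
    intro k hk
    have h := h1 bot (num k) bot bot trivial (FVs_num k) trivial trivial
    simp only [subst, subst_alls, subst_ex, subst_and, subst_ap (hg k),
      NumB_G _ _ _ _ _ (FVs_num k), NumB_add] at h
    rw [NumB_ap0 (FVs_num k), ← num_even hk, NumB_ap0 (FVs_num (2 * k))] at h
    rw [NumB_ap0 (FVs_num k), NumB_ap0 (FVs_num (2 * k))]
    refine h.mono ?_
    calc C1 * _ ≤ C1 * (300 * (Nat.size k + 1)) := Nat.mul_le_mul_left _ (hl k)
      _ = 300 * C1 * (Nat.size k + 1) := by ring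
      _ ≤ _ := Nat.mul_le_mul_right _ (by omega)
  have hO : ∀ k, 0 < k → Pv {ψ | ψ ∈ T} (300 * (C1 + C2) * (Nat.size k + 1))
      (imp (alls 2 (imp (ap (num k) [0]) (imp (ap (num k) [1]) (eq 0 1))))
        (alls 2 (imp (ap (num (2 * k + 1)) [0]) (imp (ap (num (2 * k + 1)) [1])
          (eq 0 1))))) := by
    intro k hk
    have h := h2 bot (num k) bot bot trivial (FVs_num k) trivial trivial
    simp only [subst, subst_alls, subst_ex, subst_and, subst_ap (hg k),
      NumB_G _ _ _ _ _ (FVs_num k), NumB_add, NumB_succ] at h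
    rw [NumB_ap0 (FVs_num k), ← num_odd k, NumB_ap0 (FVs_num (2 * k + 1))] at h
    rw [NumB_ap0 (FVs_num k), NumB_ap0 (FVs_num (2 * k + 1))]
    refine h.mono ?_
    calc C2 * _ ≤ C2 * (300 * (Nat.size k + 1)) := Nat.mul_le_mul_left _ (hl k)
      _ = 300 * C2 * (Nat.size k + 1) := by ring
      _ ≤ _ := Nat.mul_le_mul_right _ (by omega)
  intro k hk
  refine (chain_num (F := fun k => alls 2 (imp (ap (num k) [0]) (imp (ap (num k) [1])
    (eq 0 1)))) hb hE hO k hk).mono ?_
  have e1 : 1 ≤ (Nat.size k + 1) ^ 2 := Nat.one_le_pow _ _ (by omega)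
  have e2 : 17 * C0 ≤ 17 * C0 * (Nat.size k + 1) ^ 2 := Nat.le_mul_of_pos_right _ e1
  have e3 : (17 * C0 + 2 * (300 * (C1 + C2))) * (Nat.size k + 1) ^ 2 =
      17 * C0 * (Nat.size k + 1) ^ 2 + 2 * (300 * (C1 + C2)) * (Nat.size k + 1) ^ 2 := by ring
  rw [e3]
  omega

omit hT hc in
theorem NumT_conc {sC : ℕ} {V G H K : AFm} (x y z : ℕ) :
    subst (xi sC V G H K) (concX x y z) = ap concF [x, y, z] := by
  show rename (ext ![x, y, z]) concF = rename _ concF
  refine rename_congr (P := fun i => i < 3) StdB_concF ?_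
  intro i hi
  interval_cases i <;> rfl

/-- Concatenation of the numerals of strings. -/
theorem fam_concG : ∃ C, ∀ U V : List Bool, Pv {ψ | ψ ∈ T} (C * (U.length + V.length + 1) ^ 2)
    (alls 3 (imp (ap (num (codeS U)) [0]) (imp (ap (num (codeS V)) [1])
      (imp (ap (num (codeS (U ++ V))) [2]) (ap concF [0, 1, 2]))))) := by
  obtain ⟨C0, h0⟩ := fam cE sC T hT hc (φ := imp (alls 2 (imp (GX 0) (imp (GX 1) (eq 0 1))))
      (alls 3 (imp (GX 0) (imp (isNX 1 1) (imp (GX 2) (concX 0 1 2)))))) (by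
    intro M _ S hS hq _ e
    simp only [alls, sat_all, sat_imp, sat_isNX, NumB_satG, sat_concX, scons]
    intro h a b c h1 h2 h3
    have e1 : c = a := h a c h1 h3
    subst e1
    exact hS.conc0 _ _ h2)
  obtain ⟨C1, h1⟩ := fam cE sC T hT hc
    (φ := imp (alls 3 (imp (GX 0) (imp (HX 1) (imp (KX 2) (concX 0 1 2)))))
      (alls 3 (imp (GX 0) (imp (ap (ex (and (HX 0) (addX 0 0 1))) [1])
        (imp (ap (ex (and (KX 0) (addX 0 0 1))) [2]) (concX 0 1 2)))))) (by
    intro M _ S hS hq _ e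
    simp only [alls, sat_all, sat_imp, sat_ap, sat_ex, sat_and, NumB_satG, NumB_satH, NumB_satK,
      NumB_satAdd, sat_concX, scons, List.getD_cons_zero]
    rintro h a b c h1 ⟨x, hx, hx'⟩ ⟨y, hy, hy'⟩
    exact hS.concD _ _ _ _ _ (h y x c h1 hx hy) hx' hy')
  obtain ⟨C2, h2⟩ := fam cE sC T hT hc
    (φ := imp (alls 3 (imp (GX 0) (imp (HX 1) (imp (KX 2) (concX 0 1 2)))))
      (alls 3 (imp (GX 0) (imp (ap (ex (ex (and (HX 0) (and (addX 0 0 1) (succX 1 2))))) [1])
        (imp (ap (ex (ex (and (KX 0) (and (addX 0 0 1) (succX 1 2))))) [2])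
          (concX 0 1 2)))))) (by
    intro M _ S hS hq _ e
    simp only [alls, sat_all, sat_imp, sat_ap, sat_ex, sat_and, NumB_satG, NumB_satH, NumB_satK,
      NumB_satAdd, NumB_satSucc, sat_concX, scons, List.getD_cons_zero]
    rintro h a b c h1 ⟨u, x, hx, hx', hu⟩ ⟨v, y, hy, hy', hv⟩
    exact hS.concE _ _ _ _ _ _ _ (h y x c h1 hx hy) hx' hy' hu hv)
  obtain ⟨C3, h3⟩ := fam_unN cE sC T hT hc
  obtain ⟨D, hD⟩ : ∃ D, D = 1300 * (C0 + C1 + C2) + 4 * C3 := ⟨_, rfl⟩
  refine ⟨5 * D, fun U V => ?_⟩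
  have hlen : ∀ W : List Bool, len (num (codeS W)) ≤ 200 * (W.length + 2) := by
    intro W
    have h5 := len_num (codeS W)
    have h6 := NumC_size_codeS W
    omega
  have hb : len (bot : AFm) = 4 := rfl
  have hbase : Pv {ψ | ψ ∈ T} (3 * D * (U.length + 1) ^ 2)
      (alls 3 (imp (ap (num (codeS U)) [0]) (imp (ap (num (codeS [])) [1])
        (imp (ap (num (codeS (U ++ []))) [2]) (ap concF [0, 1, 2]))))) := by
    have h := h0 bot (num (codeS U)) bot bot trivial (FVs_num _) trivial trivial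
    have hg : Good arX (xi sC bot (num (codeS U)) bot bot) :=
      xi_good sC trivial (FVs_num _) trivial trivial
    simp only [subst, subst_alls, NumB_G _ _ _ _ _ (FVs_num _), NumC_isNX sC hg,
      NumT_conc] at h
    rw [List.append_nil, codeS_nil]
    refine (h.mp' (h3 (codeS U) (codeS_pos U))).mono ?_
    have h6 := NumC_size_codeS U
    have h7 := hlen U
    have h8 : U.length + 1 ≤ (U.length + 1) ^ 2 := Nat.le_self_pow (by norm_num) _
    have h9 : (Nat.size (codeS U) + 1) ^ 2 ≤ 4 * (U.length + 1) ^ 2 := by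
      calc (Nat.size (codeS U) + 1) ^ 2 ≤ (2 * (U.length + 1)) ^ 2 :=
            Nat.pow_le_pow_left (by omega) 2
        _ = _ := by ring
    have z1 : C0 * (1 + len (bot : AFm) + len (num (codeS U)) + len (bot : AFm) +
        len (bot : AFm)) ≤ D * (U.length + 1) ^ 2 := by
      calc _ ≤ C0 * (1300 * (U.length + 1) ^ 2) := Nat.mul_le_mul_left _ (by omega)
        _ = 1300 * C0 * (U.length + 1) ^ 2 := by ring
        _ ≤ _ := Nat.mul_le_mul_right _ (by omega)
    have z2 : C3 * (Nat.size (codeS U) + 1) ^ 2 ≤ D * (U.length + 1) ^ 2 := by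
      calc _ ≤ C3 * (4 * (U.length + 1) ^ 2) := Nat.mul_le_mul_left _ h9
        _ = 4 * C3 * (U.length + 1) ^ 2 := by ring
        _ ≤ _ := Nat.mul_le_mul_right _ (by omega)
    have z3 : 3 * D * (U.length + 1) ^ 2 = 2 * (D * (U.length + 1) ^ 2) +
        D * (U.length + 1) ^ 2 := by ring
    omega
  have hstep : ∀ (v : List Bool) (b : Bool), Pv {ψ | ψ ∈ T} (D * (v.length + (U.length + 1)))
      (imp (alls 3 (imp (ap (num (codeS U)) [0]) (imp (ap (num (codeS v)) [1])
        (imp (ap (num (codeS (U ++ v))) [2]) (ap concF [0, 1, 2])))))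
        (alls 3 (imp (ap (num (codeS U)) [0]) (imp (ap (num (codeS (v ++ [b]))) [1])
        (imp (ap (num (codeS (U ++ (v ++ [b])))) [2]) (ap concF [0, 1, 2])))))) := by
    intro v b
    have hg : Good arX (xi sC bot (num (codeS U)) (num (codeS v)) (num (codeS (U ++ v)))) :=
      xi_good sC trivial (FVs_num _) (FVs_num _) (FVs_num _)
    have hz : 1 + len (bot : AFm) + len (num (codeS U)) + len (num (codeS v)) +
        len (num (codeS (U ++ v))) ≤ 1300 * (v.length + (U.length + 1)) := by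
      have l1 := hlen U
      have l2 := hlen v
      have l3 := hlen (U ++ v)
      rw [List.length_append] at l3
      omega
    rw [← List.append_assoc, codeS_append_bit, codeS_append_bit]
    cases b
    · have h := h1 bot (num (codeS U)) (num (codeS v)) (num (codeS (U ++ v))) trivial
        (FVs_num _) (FVs_num _) (FVs_num _)
      simp only [subst, subst_alls, subst_ex, subst_and, subst_ap hg,
        NumB_G _ _ _ _ _ (FVs_num _), NumB_H _ _ _ _ _ (FVs_num _),
        NumB_K _ _ _ _ _ (FVs_num _), NumB_add, NumT_conc] at h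
      rw [NumB_ap0 (FVs_num (codeS v)), NumB_ap0 (FVs_num (codeS (U ++ v))),
        ← num_even (codeS_pos _), ← num_even (codeS_pos _)] at h
      refine h.mono ?_
      calc C1 * _ ≤ C1 * (1300 * (v.length + (U.length + 1))) := Nat.mul_le_mul_left _ hz
        _ = 1300 * C1 * (v.length + (U.length + 1)) := by ring
        _ ≤ _ := Nat.mul_le_mul_right _ (by omega)
    · have h := h2 bot (num (codeS U)) (num (codeS v)) (num (codeS (U ++ v))) trivial
        (FVs_num _) (FVs_num _) (FVs_num _)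
      simp only [subst, subst_alls, subst_ex, subst_and, subst_ap hg,
        NumB_G _ _ _ _ _ (FVs_num _), NumB_H _ _ _ _ _ (FVs_num _),
        NumB_K _ _ _ _ _ (FVs_num _), NumB_add, NumB_succ, NumT_conc] at h
      rw [NumB_ap0 (FVs_num (codeS v)), NumB_ap0 (FVs_num (codeS (U ++ v))),
        ← num_odd, ← num_odd] at h
      refine h.mono ?_
      calc C2 * _ ≤ C2 * (1300 * (v.length + (U.length + 1))) := Nat.mul_le_mul_left _ hz
        _ = 1300 * C2 * (v.length + (U.length + 1)) := by ring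
        _ ≤ _ := Nat.mul_le_mul_right _ (by omega)
  refine (chain_str hbase hstep V).mono ?_
  have e1 : V.length + (U.length + 1) = U.length + V.length + 1 := by ring
  rw [e1]
  have e2 : (U.length + 1) ^ 2 ≤ (U.length + V.length + 1) ^ 2 :=
    Nat.pow_le_pow_left (by omega) 2
  have e3 := Nat.mul_le_mul_left (3 * D) e2
  have e4 : 5 * D * (U.length + V.length + 1) ^ 2 = 3 * D * (U.length + V.length + 1) ^ 2 +
    2 * D * (U.length + V.length + 1) ^ 2 := by ring
  omega

/-- The numeral of the numeral. -/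
theorem fam_nuG : ∃ C, ∀ k, 0 < k → Pv {ψ | ψ ∈ T} (C * (Nat.size k + 1) ^ 2)
    (alls 2 (imp (ap (num k) [0]) (imp (ap (num (codeS (encode (num k)))) [1])
      (and (neg (zeroA 0)) nuF)))) := by
  obtain ⟨C0, h0⟩ := fam cE sC T hT hc
    (φ := alls 2 (imp (isNX 1 0) (imp (isNX (codeS (encode (num 1))) 1)
      (and (neg (zeroX 0)) (nuX 0 1))))) (by
    intro M _ S hS hq _ e
    simp only [alls, sat_all, sat_imp, sat_and, sat_neg, NumB_satZero, sat_isNX, NumC_satNu,
      scons]
    intro a b hb ha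
    refine ⟨?_, nu_codes hS hq 1 hb ha⟩
    obtain ⟨y, _, hy⟩ := (isN_iff_isU hq 1 b).1 hb
    exact hq.succ_ne _ _ hy)
  have hfv : FVs (fun i => i < 1) (HX 0) := by
    intro k
    change Fin 1 at k
    fin_cases k
    exact Nat.zero_lt_one
  obtain ⟨C1, h1⟩ := fam cE sC T hT hc
    (φ := imp (alls 2 (imp (GX 0) (imp (HX 1) (and (neg (zeroX 0)) (nuX 0 1)))))
      (alls 2 (imp (ap (ex (and (GX 0) (addX 0 0 1))) [0])
        (imp (ap (digX suf0 (HX 0)) [1]) (and (neg (zeroX 0)) (nuX 0 1)))))) (by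
    intro M _ S hS hq _ e
    simp only [alls, sat_all, sat_imp, sat_ex, sat_and, sat_neg, sat_ap, sat_digX S _ hfv,
      NumB_satG, NumB_satH, NumB_satZero, NumB_satAdd, NumC_satNu, scons, List.getD_cons_zero]
    rintro h1 a b ⟨c, hc, hcb⟩ ⟨t, ht, hta⟩
    obtain ⟨h2, h3⟩ := h1 _ _ hc ht
    exact ⟨NumC_ne0 S hq h2 hcb, hS.nuD _ _ _ _ h3 h2 hcb hta⟩)
  obtain ⟨C2, h2⟩ := fam cE sC T hT hc
    (φ := imp (alls 2 (imp (GX 0) (imp (HX 1) (and (neg (zeroX 0)) (nuX 0 1)))))
      (alls 2 (imp (ap (ex (ex (and (GX 0) (and (addX 0 0 1) (succX 1 2))))) [0])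
        (imp (ap (digX suf1 (HX 0)) [1]) (and (neg (zeroX 0)) (nuX 0 1)))))) (by
    intro M _ S hS hq _ e
    simp only [alls, sat_all, sat_imp, sat_ex, sat_and, sat_neg, sat_ap, sat_digX S _ hfv,
      NumB_satG, NumB_satH, NumB_satZero, NumB_satAdd, NumB_satSucc, NumC_satNu, scons,
      List.getD_cons_zero]
    rintro h1 a b ⟨u, c, hc, hcb, hu⟩ ⟨t, ht, hta⟩
    obtain ⟨h2, h3⟩ := h1 _ _ hc ht
    exact ⟨hq.succ_ne _ _ hu, hS.nuE _ _ _ _ _ h3 hcb hu hta⟩)
  obtain ⟨D, hD⟩ : ∃ D, D = 50000 * (C1 + C2) := ⟨_, rfl⟩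
  refine ⟨17 * C0 + 2 * D, ?_⟩
  have hb : Pv {ψ | ψ ∈ T} (17 * C0)
      (alls 2 (imp (ap (num 1) [0]) (imp (ap (num (codeS (encode (num 1)))) [1])
      (and (neg (zeroA 0)) nuF)))) := by
    have h := h0 bot bot bot bot trivial trivial trivial trivial
    have hg0 : Good arX (xi sC bot bot bot bot) := xi_good sC trivial trivial trivial trivial
    simp only [subst, subst_alls, subst_and, subst_neg, NumB_zero, NumC_isNX sC hg0,
      NumC_nu sC hg0] at h
    refine h.mono ?_
    have : len (bot : AFm) = 4 := rfl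
    rw [this]
    omega
  have hl : ∀ k, 1 + len (bot : AFm) + len (num k) + len (num (codeS (encode (num k)))) +
      len (bot : AFm) ≤ 50000 * (Nat.size k + 1) := by
    intro k
    have l1 := len_num k
    have l2 := len_num (codeS (encode (num k)))
    have l3 := NumC_size_codeS (encode (num k))
    rw [length_encode] at l3
    have h5 : len (bot : AFm) = 4 := rfl
    omega
  have hE : ∀ k, 0 < k → Pv {ψ | ψ ∈ T} (D * (Nat.size k + 1))
      (imp (alls 2 (imp (ap (num k) [0]) (imp (ap (num (codeS (encode (num k)))) [1])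
        (and (neg (zeroA 0)) nuF))))
      (alls 2 (imp (ap (num (2 * k)) [0]) (imp (ap (num (codeS (encode (num (2 * k))))) [1])
        (and (neg (zeroA 0)) nuF))))) := by
    intro k hk
    have hg : Good arX (xi sC bot (num k) (num (codeS (encode (num k)))) bot) :=
      xi_good sC trivial (FVs_num _) (FVs_num _) trivial
    have h := h1 bot (num k) (num (codeS (encode (num k)))) bot trivial (FVs_num k)
      (FVs_num _) trivial
    simp only [subst, subst_alls, subst_ex, subst_and, subst_neg, subst_ap hg,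
      NumB_G _ _ _ _ _ (FVs_num _), NumB_H _ _ _ _ _ (FVs_num _), NumB_add, NumB_zero,
      NumC_nu sC hg, subst_digX (τ := xi sC bot (num k) (num (codeS (encode (num k)))) bot)
        rfl rfl] at h
    rw [NumB_ap0 (FVs_num k), ← num_even hk, NumB_ap0 (FVs_num (codeS (encode (num k)))),
      ← num_codeS_append, ← encode_num_even hk, NumB_ap0 (FVs_num (2 * k))] at h
    rw [NumB_ap0 (FVs_num k), NumB_ap0 (FVs_num (2 * k))]
    refine h.mono ?_
    calc C1 * _ ≤ C1 * (50000 * (Nat.size k + 1)) := Nat.mul_le_mul_left _ (hl k)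
      _ = 50000 * C1 * (Nat.size k + 1) := by ring
      _ ≤ _ := Nat.mul_le_mul_right _ (by omega)
  have hO : ∀ k, 0 < k → Pv {ψ | ψ ∈ T} (D * (Nat.size k + 1))
      (imp (alls 2 (imp (ap (num k) [0]) (imp (ap (num (codeS (encode (num k)))) [1])
        (and (neg (zeroA 0)) nuF))))
      (alls 2 (imp (ap (num (2 * k + 1)) [0])
        (imp (ap (num (codeS (encode (num (2 * k + 1))))) [1])
        (and (neg (zeroA 0)) nuF))))) := by
    intro k hk
    have hg : Good arX (xi sC bot (num k) (num (codeS (encode (num k)))) bot) :=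
      xi_good sC trivial (FVs_num _) (FVs_num _) trivial
    have h := h2 bot (num k) (num (codeS (encode (num k)))) bot trivial (FVs_num k)
      (FVs_num _) trivial
    simp only [subst, subst_alls, subst_ex, subst_and, subst_neg, subst_ap hg,
      NumB_G _ _ _ _ _ (FVs_num _), NumB_H _ _ _ _ _ (FVs_num _), NumB_add, NumB_zero,
      NumB_succ,
      NumC_nu sC hg, subst_digX (τ := xi sC bot (num k) (num (codeS (encode (num k)))) bot)
        rfl rfl] at h
    rw [NumB_ap0 (FVs_num k), ← num_odd k, NumB_ap0 (FVs_num (codeS (encode (num k)))),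
      ← num_codeS_append, ← encode_num_odd k, NumB_ap0 (FVs_num (2 * k + 1))] at h
    rw [NumB_ap0 (FVs_num k), NumB_ap0 (FVs_num (2 * k + 1))]
    refine h.mono ?_
    calc C2 * _ ≤ C2 * (50000 * (Nat.size k + 1)) := Nat.mul_le_mul_left _ (hl k)
      _ = 50000 * C2 * (Nat.size k + 1) := by ring
      _ ≤ _ := Nat.mul_le_mul_right _ (by omega)
  intro k hk
  refine (chain_num (F := fun k => alls 2 (imp (ap (num k) [0])
    (imp (ap (num (codeS (encode (num k)))) [1]) (and (neg (zeroA 0)) nuF))))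
    hb hE hO k hk).mono ?_
  have e1 : 1 ≤ (Nat.size k + 1) ^ 2 := Nat.one_le_pow _ _ (by omega)
  have e2 : 17 * C0 ≤ 17 * C0 * (Nat.size k + 1) ^ 2 := Nat.le_mul_of_pos_right _ e1
  have e3 : (17 * C0 + 2 * D) * (Nat.size k + 1) ^ 2 =
      17 * C0 * (Nat.size k + 1) ^ 2 + 2 * D * (Nat.size k + 1) ^ 2 := by ring
  rw [e3]
  omega

end Pool.Agent.MycT
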