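import Pool.Agent.MycT.Scal
import Pool.Agent.MycT.Strs

set_option autoImplicit false

/-!
# Further axioms: single valued relations
-/

namespace Pool.Agent.MycT

open Pool.Agent.Myc Fm

def nuFunX : XFm := alls 3 (imp (nuX 0 1) (imp (nuX 0 2) (eq 1 2)))
def concFunX : XFm := alls 4 (imp (concX 0 1 2) (imp (concX 0 1 3) (eq 2 3)))
def e2FunX : XFm := alls 3 (imp (e2X 0 1) (imp (e2X 0 2) (eq 1 2)))

/-- The additional axioms, in the auxiliary language. -/
def funXs : List XFm := [nuFunX, concFunX, e2FunX]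

/-- The additional axioms. -/
def funAs : List AFm := funXs.map (subst (xi 0 bot bot bot bot))

theorem funXs_closed : ∀ φ ∈ funXs, Closed φ := by
  intro φ hφ
  simp only [funXs, List.mem_cons, List.not_mem_nil, or_false] at hφ
  rcases hφ with rfl | rfl | rfl
  · refine closed_alls ?_
    rw [fv_impX, fv_impX, fv_nuX, fv_nuX, fv_eqX]
    omega
  · refine closed_alls ?_
    rw [fv_impX, fv_impX, fv_concX, fv_concX, fv_eqX]
    omega
  · refine closed_alls ?_
    rw [fv_impX, fv_impX, fv_e2X, fv_e2X, fv_eqX]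
    omega

theorem funAs_closed : ∀ φ ∈ funAs, Closed φ := by
  intro φ hφ
  obtain ⟨ψ, hψ, rfl⟩ := List.mem_map.1 hφ
  exact FVs_subst (xb_good 0) (funXs_closed ψ hψ)

theorem fun_subst (sC : ℕ) : ∀ φ ∈ funXs,
    subst (xi sC bot bot bot bot) φ = subst (xi 0 bot bot bot bot) φ := by
  intro φ hφ
  simp only [funXs, List.mem_cons, List.not_mem_nil, or_false] at hφ
  rcases hφ with rfl | rfl | rfl <;> rfl

theorem Cc_fun {x y z w : ℕ} (h1 : Cc x y z) (h2 : Cc x y w) : z = w := by
  obtain ⟨q, ⟨k, hk⟩, a1, a2, a3⟩ := h1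
  obtain ⟨q', ⟨k', hk'⟩, b1, b2, b3⟩ := h2
  have e : k = k' := by
    subst hk hk'
    rcases Nat.lt_trichotomy k k' with h | h | h
    · have : 2 ^ (k + 1) ≤ 2 ^ k' := Nat.pow_le_pow_right (by norm_num) h
      rw [pow_succ] at this
      omega
    · exact h
    · have : 2 ^ (k' + 1) ≤ 2 ^ k := Nat.pow_le_pow_right (by norm_num) h
      rw [pow_succ] at this
      omega
  subst e
  subst hk hk'
  omega

theorem funAs_true : ∀ φ ∈ funAs, ∀ e, Sat NN φ e := by
  intro φ hφ e
  obtain ⟨ψ, hψ, rfl⟩ := List.mem_map.1 hφ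
  rw [sat_subst_xi]
  simp only [funXs, List.mem_cons, List.not_mem_nil, or_false] at hψ
  rcases hψ with rfl | rfl | rfl
  · refine (sat_alls _ _ _).2 (fun e => ?_) e
    rw [sat_imp, sat_imp, NumC_satNu, NumC_satNu]
    intro h1 h2
    have h1' : e 1 = codeS (encode (num (e 0))) := h1
    have h2' : e 2 = codeS (encode (num (e 0))) := h2
    exact h1'.trans h2'.symm
  · refine (sat_alls _ _ _).2 (fun e => ?_) e
    rw [sat_imp, sat_imp, sat_concX, sat_concX]
    intro h1 h2
    have h1' : Cc (e 0) (e 1) (e 2) := h1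
    have h2' : Cc (e 0) (e 1) (e 3) := h2
    exact Cc_fun h1' h2'
  · refine (sat_alls _ _ _).2 (fun e => ?_) e
    rw [sat_imp, sat_imp, sat_e2X, sat_e2X]
    intro h1 h2
    have h1' : e 1 = 2 ^ (e 0) := h1
    have h2' : e 2 = 2 ^ (e 0) := h2
    exact h1'.trans h2'.symm

/-- The meaning of the additional axioms. -/
theorem fun_sem {M : Type} [Nonempty M] (S : XStr M) (h : ∀ φ ∈ funXs, ∀ e, Sat S φ e) :
    (∀ x y z, nuR S x y → nuR S x z → y = z) ∧
    (∀ x y z w, concR S x y z → concR S x y w → z = w) ∧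
    (∀ x y z, e2R S x y → e2R S x z → y = z) := by
  refine ⟨fun x y z h1 h2 => ?_, fun x y z w h1 h2 => ?_, fun x y z h1 h2 => ?_⟩
  · have h3 := (sat_alls _ _ _).1 (h nuFunX (by simp [funXs])) (fun i => [x, y, z].getD i x)
    rw [sat_imp, sat_imp, NumC_satNu, NumC_satNu] at h3
    exact h3 h1 h2
  · have h3 := (sat_alls _ _ _).1 (h concFunX (by simp [funXs])) (fun i => [x, y, z, w].getD i x)
    rw [sat_imp, sat_imp, sat_concX, sat_concX] at h3
    exact h3 h1 h2
  · have h3 := (sat_alls _ _ _).1 (h e2FunX (by simp [funXs])) (fun i => [x, y, z].getD i x)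
    rw [sat_imp, sat_imp, sat_e2X, sat_e2X] at h3
    exact h3 h1 h2

end Pool.Agent.MycT
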