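import Pool.Agent.Myc.FamB
import Pool.Agent.Myc.FamC
import Pool.Agent.Myc.IntB

set_option autoImplicit false

/-!
# A language with more predicate variables, and its principle for families of short proofs
-/

namespace Pool.Agent.MycT

open Pool.Agent.Myc Fm

/-- The symbols of the auxiliary language and eight unary predicate variables. -/
inductive RY : Type
  | x (r : RX)
  | p (i : Fin 8)
  deriving DecidableEq, Fintype

/-- Their arities. -/
def arY : RY → ℕ
  | .x r => arX r
  | .p _ => 1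

/-- Formulas of this language. -/
abbrev YFm : Type := Fm RY arY

/-- Structures for this language. -/
abbrev YStr (M : Type) : Type := Str RY arY M

/-- The reduct to the auxiliary language. -/
def red {M : Type} (S : YStr M) : XStr M where
  rel r v := S.rel (.x r) v

/-- The meaning of the predicate variables. -/
def pR {M : Type} (S : YStr M) (i : Fin 8) (a : M) : Prop := S.rel (.p i) (fun _ => a)

/-- The predicate variable `i`, for the variable `x`. -/
def pY (i : Fin 8) (x : ℕ) : YFm := rel (.p i) (fun _ => x)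

/-- The inclusion of the auxiliary language. -/
def inclT (r : RX) : YFm := rel (.x r) (fun k => (k : ℕ))

/-- The inclusion of the auxiliary language. -/
def incl : XFm → YFm := subst inclT

/-- The arithmetical formulas for the symbols. -/
def yi (sC : ℕ) (P : Fin 8 → AFm) : RY → AFm
  | .x r => xi sC bot bot bot bot r
  | .p i => P i

theorem inclT_good : Good arX inclT := by
  intro r k
  exact k.2

theorem xb_good (sC : ℕ) : Good arX (xi sC bot bot bot bot) :=
  xi_good sC (V := bot) (G := bot) (H := bot) (K := bot) trivial trivial trivial trivial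

theorem yi_good (sC : ℕ) {P : Fin 8 → AFm} (hP : ∀ i, FVs (fun j => j < 1) (P i)) :
    Good arY (yi sC P) := by
  intro r
  cases r with
  | x r => exact xb_good sC r
  | p i => exact hP i

theorem pull_inclT {M : Type} (S : YStr M) (d : M) : pull arX S d inclT = red S := by
  unfold pull red
  congr 1
  funext r v
  show S.rel (.x r) (fun k => if h : (k : ℕ) < arX r then v ⟨k, h⟩ else d) = _
  congr 1
  funext k
  exact dif_pos k.2

theorem sat_incl {M : Type} (S : YStr M) (φ : XFm) (e : ℕ → M) :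
    Sat S (incl φ) e ↔ Sat (red S) φ e := by
  unfold incl
  rw [sat_subst S (e 0) inclT_good, pull_inclT]

theorem sat_pY {M : Type} (S : YStr M) (i : Fin 8) (x : ℕ) (e : ℕ → M) :
    Sat S (pY i x) e ↔ pR S i (e x) := Iff.rfl

theorem subst_yi_incl (sC : ℕ) (P : Fin 8 → AFm) (hP : ∀ i, FVs (fun j => j < 1) (P i))
    (φ : XFm) : subst (yi sC P) (incl φ) = subst (xi sC bot bot bot bot) φ := by
  unfold incl
  rw [subst_subst inclT_good (yi_good sC hP)]
  congr 1
  funext r
  show rename (ext (fun k : Fin (arX r) => (k : ℕ))) (xi sC bot bot bot bot r) = _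
  conv_rhs => rw [← rename_id (xi sC bot bot bot bot r)]
  refine rename_congr (xb_good sC r) ?_
  intro i hi
  exact dif_pos hi

theorem subst_yi_pY (sC : ℕ) (P : Fin 8 → AFm) (hP : ∀ i, FVs (fun j => j < 1) (P i))
    (i : Fin 8) (x : ℕ) : subst (yi sC P) (pY i x) = ap (P i) [x] := by
  show rename (ext (fun _ : Fin 1 => x)) (P i) = rename _ (P i)
  refine rename_congr (hP i) ?_
  intro j hj
  have : j = 0 := by omega
  subst this
  rfl

private theorem sum_le (sC : ℕ) (P : Fin 8 → AFm) :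
    ∑ r, len (yi sC P r) ≤ ∑ r, len (yi sC (fun _ => bot) r) + ∑ i, len (P i) := by
  have h : ∀ r : RY, len (yi sC P r) ≤ len (yi sC (fun _ => bot) r) +
      ∑ i, (if r = RY.p i then len (P i) else 0) := by
    intro r
    cases r with
    | x r => exact Nat.le_add_right _ _
    | p i =>
      refine le_trans ?_ (Nat.le_add_left _ _)
      refine le_trans ?_ (Finset.single_le_sum (f := fun j =>
        (if RY.p i = RY.p j then len (P j) else 0)) (fun _ _ => Nat.zero_le _)
        (Finset.mem_univ i))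
      simp [yi]
  calc ∑ r, len (yi sC P r)
      ≤ ∑ r : RY, (len (yi sC (fun _ => bot) r) +
        ∑ i, (if r = RY.p i then len (P i) else 0)) := Finset.sum_le_sum fun r _ => h r
    _ = ∑ r, len (yi sC (fun _ => bot) r) + ∑ i, len (P i) := by
        rw [Finset.sum_add_distrib]
        refine congrArg (fun z => ∑ r, len (yi sC (fun _ => bot) r) + z) ?_
        rw [Finset.sum_comm]
        refine Finset.sum_congr rfl ?_
        intro i _
        rw [Finset.sum_ite_eq' Finset.univ (RY.p i) (fun _ => len (P i))]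
        exact if_pos (Finset.mem_univ _)

theorem emb_closed {φ : AFm} (h : Closed φ) : Closed (emb φ) :=
  FVs_subst AxB_good_embT h

/-- The axioms: the images in the auxiliary language with predicate variables. -/
def axY (cE sC : ℕ) (T : List AFm) (E : List XFm) : Set YFm :=
  {χ | ∃ ψ : XFm, ((∃ θ ∈ T, ψ = emb θ) ∨ ψ ∈ SigX cE (cdL A0) sC ∨ ψ ∈ E) ∧ χ = incl ψ}

theorem axY_closed (cE sC : ℕ) (T : List AFm) (hc : ∀ φ ∈ T, Closed φ) (E : List XFm)
    (hE : ∀ φ ∈ E, Closed φ) : ∀ χ ∈ axY cE sC T E, Closed χ := by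
  rintro χ ⟨ψ, h1, rfl⟩
  refine FVs_subst inclT_good ?_
  rcases h1 with ⟨θ, hθ, rfl⟩ | hψ | hψ
  · exact emb_closed (hc θ hθ)
  · exact SigX_closed _ _ _ ψ hψ
  · exact hE ψ hψ

theorem axY_sat (cE sC : ℕ) (T : List AFm) (E : List XFm) {M : Type} [Nonempty M] (S : YStr M)
    (hS : ∀ ψ ∈ axY cE sC T E, ∀ e, Sat S ψ e) :
    SMax (red S) cE (cdL A0) sC ∧ QM (red S) ∧ (∀ ψ ∈ T, ∀ e, Sat (red S) (emb ψ) e) ∧
      (∀ ψ ∈ E, ∀ e, Sat (red S) ψ e) := by
  have hS' : ∀ ψ : XFm, ((∃ θ ∈ T, ψ = emb θ) ∨ ψ ∈ SigX cE (cdL A0) sC ∨ ψ ∈ E) →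
      ∀ e, Sat (red S) ψ e := by
    intro ψ hψ e
    exact (sat_incl S ψ e).mp (hS (incl ψ) ⟨ψ, hψ, rfl⟩ e)
  have h1 : SMax (red S) cE (cdL A0) sC :=
    (models_iff (red S) cE (cdL A0) sC).mp fun ψ hψ => hS' ψ (Or.inr (Or.inl hψ))
  exact ⟨h1, qm h1.q, fun ψ hψ => hS' (emb ψ) (Or.inl ⟨ψ, hψ, rfl⟩),
    fun ψ hψ => hS' ψ (Or.inr (Or.inr hψ))⟩

theorem axY_subst (cE sC : ℕ) (T : List AFm) (hT : ∀ φ ∈ BaseA cE sC, φ ∈ T) (E : List XFm)
    (hE : ∀ φ ∈ E, subst (xi sC bot bot bot bot) φ ∈ T) (P : Fin 8 → AFm)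
    (hP : ∀ i, FVs (fun j => j < 1) (P i)) :
    ∀ ψ ∈ axY cE sC T E, subst (yi sC P) ψ ∈ ({ψ | ψ ∈ T} : Set AFm) := by
  rintro χ ⟨ψ, h1, rfl⟩
  rw [subst_yi_incl sC P hP]
  rcases h1 with ⟨θ, hθ, rfl⟩ | hψ | hψ
  · rw [subst_xi_emb]
    exact hθ
  · have hχ' := hψ
    unfold SigX at hχ'
    rw [List.mem_append, List.mem_map, List.mem_map] at hχ'
    rcases hχ' with ⟨q, hq, rfl⟩ | ⟨p, hp, rfl⟩
    · rw [subst_xi_emb]
      refine hT q ?_
      unfold BaseA A0
      rw [List.mem_append, List.mem_append]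
      exact Or.inl (Or.inl hq)
    · rw [subst_alls]
      refine hT _ ?_
      unfold BaseA
      rw [List.mem_append, List.mem_map]
      exact Or.inr ⟨p, hp, rfl⟩
  · exact hE ψ hψ

/-- The principle for families of short proofs, for theories which contain the base theory and
the further sentences `E` of the auxiliary language, with eight predicate variables. -/
theorem famY (cE sC : ℕ) (T : List AFm) (hT : ∀ φ ∈ BaseA cE sC, φ ∈ T)
    (hc : ∀ φ ∈ T, Closed φ) (E : List XFm) (hEc : ∀ φ ∈ E, Closed φ)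
    (hE : ∀ φ ∈ E, subst (xi sC bot bot bot bot) φ ∈ T) {φ : YFm}
    (h : ∀ (M : Type) [Nonempty M] (S : YStr M), SMax (red S) cE (cdL A0) sC → QM (red S) →
      (∀ ψ ∈ T, ∀ e, Sat (red S) (emb ψ) e) → (∀ ψ ∈ E, ∀ e, Sat (red S) ψ e) →
      ∀ e, Sat S φ e) :
    ∃ C, ∀ P : Fin 8 → AFm, (∀ i, FVs (fun j => j < 1) (P i)) →
      Pv {ψ | ψ ∈ T} (C * (1 + ∑ i, len (P i))) (subst (yi sC P) φ) := by
  obtain ⟨C, hC⟩ := schema (R := RY) (ar := arY) (R' := AR) (ar' := arA)
    (T := axY cE sC T E) (φ := φ) (axY_closed cE sC T hc E hEc)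
    (fun M _ S hS => by
      obtain ⟨h1, h2, h3, h4⟩ := axY_sat cE sC T E S hS
      exact h M S h1 h2 h3 h4)
  refine ⟨C * (1 + ∑ r, len (yi sC (fun _ => bot) r)), ?_⟩
  intro P hP
  refine (hC (yi sC P) {ψ | ψ ∈ T} (yi_good sC hP) (axY_subst cE sC T hT E hE P hP)).mono ?_
  rw [Nat.mul_assoc]
  refine Nat.mul_le_mul_left _ ?_
  have h1 := sum_le sC P
  generalize ∑ r, len (yi sC P r) = a at h1 ⊢
  generalize ∑ r, len (yi sC (fun _ => bot) r) = b at h1 ⊢
  generalize ∑ i, len (P i) = c at h1 ⊢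
  have h3 : (1 + b) * (1 + c) = (1 + c) + b * (1 + c) := by ring
  have h2 : b * 1 ≤ b * (1 + c) := Nat.mul_le_mul_left _ (by omega)
  omega

end Pool.Agent.MycT
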