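import Pool.Agent.MycT.Comb
import Pool.Agent.Myc.RepE

set_option autoImplicit false

/-!
# All exponents are equivalent
-/

namespace Pool.Agent.MycT

open Pool.Agent.Myc Fm

/-- Polynomial bounds are bounded by powers. -/
theorem poly_le (K a c : ℕ) : ∃ d, ∀ x y : ℕ, 2 ≤ x → y ≤ K * x ^ a + x ^ c → y ≤ x ^ d := by
  refine ⟨K + 1 + a + c, fun x y hx hy => hy.trans ?_⟩
  have h1 : 1 ≤ x ^ a := Nat.one_le_pow _ _ (by omega)
  have h2 : 1 ≤ x ^ c := Nat.one_le_pow _ _ (by omega)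
  have h3 : K + 1 ≤ x ^ (K + 1) :=
    (Nat.lt_two_pow_self).le.trans (Nat.pow_le_pow_left hx _)
  calc K * x ^ a + x ^ c ≤ K * x ^ a * x ^ c + x ^ a * x ^ c :=
        Nat.add_le_add (Nat.le_mul_of_pos_right _ h2) (Nat.le_mul_of_pos_left _ h1)
    _ = (K + 1) * (x ^ a * x ^ c) := by ring
    _ ≤ x ^ (K + 1) * (x ^ a * x ^ c) := Nat.mul_le_mul_right _ h3
    _ = x ^ (K + 1 + a + c) := by ring

/-- If the version of the question with the bound `C |T| N ^ 2`, or a larger one, has a positive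
answer for `T`, for one `N` in each interval of polynomial length, then so have all versions with
arbitrary bounds. -/
theorem partA (cE sC : ℕ) (T : List AFm) (hT : ∀ φ ∈ BaseA cE sC, φ ∈ T)
    (hc : ∀ φ ∈ T, Closed φ) (hd : dblA ∈ T) (hs : scalA sC ∈ T)
    (h : ∃ c, ∀ x, ∃ N M, x ≤ N ∧ N ≤ (x + 2) ^ c ∧
      (sC + 1) * ((encodeL T).length + 1) * (N + 1) ^ 2 ≤ M ∧ M ≤ (x + 2) ^ c ∧
      Proves {ψ | ψ ∈ T} ((x + 2) ^ c) (Con (Con T (2 ^ N) :: T) M)) :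
    ∃ c, ∀ n m, Proves {ψ | ψ ∈ T} ((n + m + 2) ^ c) (Con (Con T (2 ^ n) :: T) m) := by
  obtain ⟨c, hcc⟩ := h
  obtain ⟨C, hC⟩ := con_scale cE sC T hT hc hd hs
  obtain ⟨d, hdd⟩ := poly_le (2 * C * 4 ^ 6) (6 * c + 6) c
  refine ⟨d, fun n m => ?_⟩
  obtain ⟨N, M, hN1, hN2, hM1, hM2, h1⟩ := hcc (n + m)
  rw [proves_iff] at h1
  have hm : m + sC * ((encodeL T).length + 1) * ((N + 1) * (N + 1)) ≤ M := by
    refine le_trans ?_ hM1
    have e1 : (sC + 1) * ((encodeL T).length + 1) * (N + 1) ^ 2 =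
        sC * ((encodeL T).length + 1) * ((N + 1) * (N + 1)) +
        ((encodeL T).length + 1) * ((N + 1) * (N + 1)) := by ring
    have e2 : m ≤ ((encodeL T).length + 1) * ((N + 1) * (N + 1)) := by
      calc m ≤ N + 1 := by omega
        _ ≤ (N + 1) * (N + 1) := Nat.le_mul_of_pos_right _ (by omega)
        _ ≤ _ := Nat.le_mul_of_pos_left _ (by omega)
    omega
  have h2 := (hC n m N M (by omega) hm).mp' h1
  rw [proves_iff]
  refine h2.mono (hdd (n + m + 2) _ (by omega) ?_)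
  obtain ⟨X, hX⟩ : ∃ X, X = n + m + 2 := ⟨_, rfl⟩
  rw [← hX] at hN2 hM2 ⊢
  obtain ⟨Y, hY⟩ : ∃ Y, Y = X ^ c := ⟨_, rfl⟩
  rw [← hY] at hN2 hM2
  have y1 : 1 ≤ Y := by
    rw [hY]
    exact Nat.one_le_pow _ _ (by omega)
  have e3 : m + M + N + 1 ≤ 4 * (Y * X) := by
    have z1 : X ≤ Y * X := Nat.le_mul_of_pos_left _ y1
    have z2 : Y ≤ Y * X := Nat.le_mul_of_pos_right _ (by omega)
    omega
  have e7 : 2 * (C * (m + M + N + 1) ^ 6) ≤ 2 * C * 4 ^ 6 * X ^ (6 * c + 6) := by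
    calc 2 * (C * (m + M + N + 1) ^ 6) ≤ 2 * (C * (4 * (Y * X)) ^ 6) :=
          Nat.mul_le_mul_left _ (Nat.mul_le_mul_left _ (Nat.pow_le_pow_left e3 6))
      _ = 2 * C * 4 ^ 6 * (Y ^ 6 * X ^ 6) := by ring
      _ = 2 * C * 4 ^ 6 * X ^ (6 * c + 6) := by
        rw [hY, ← pow_mul, ← pow_add, Nat.mul_comm c 6]
  exact Nat.add_le_add_right e7 _

/-- The base theory for this theorem. -/
def BaseS (cE sC : ℕ) : List AFm := BaseA cE sC ++ [dblA, scalA sC]

theorem BaseS_closed (cE sC : ℕ) : ∀ φ ∈ BaseS cE sC, Closed φ := by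
  intro φ hφ
  rcases List.mem_append.1 hφ with h | h
  · exact BaseA_closed cE sC φ h
  · rcases List.mem_cons.1 h with rfl | h
    · exact dblA_closed
    · rw [List.mem_singleton.1 h]
      exact scalA_closed sC

theorem exists_BaseS : ∃ cE sC, ∀ φ ∈ BaseS cE sC, ∀ e, Sat NN φ e := by
  obtain ⟨cE, s1, hrep⟩ := rep_lemma
  obtain ⟨C, hC⟩ := con_descend
  refine ⟨cE, max s1 C, ?_⟩
  have htrue := BaseA_true (max s1 C) cE (fun m T x h1 h2 h3 =>
    hrep m T x ((Nat.mul_le_mul_right _ (le_max_left _ _)).trans h1) h2 h3)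
  intro φ hφ
  rcases List.mem_append.1 hφ with h | h
  · exact htrue φ h
  · rcases List.mem_cons.1 h with rfl | h
    · exact dblA_true
    · rw [List.mem_singleton.1 h]
      exact scalA_true C (max s1 C) hC (le_max_right _ _)

end Pool.Agent.MycT
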