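import Pool.Agent.MycT.Fix
import Pool.Agent.MycT.Fun
import Pool.Agent.MycT.Comb

set_option autoImplicit false

/-!
# Short contradictions from the diagonal sentence
-/

namespace Pool.Agent.MycT

open Pool.Agent.Myc Fm

/-- The implication which gives the short contradiction. -/
def gY (κ : ℕ) : YFm :=
  imp (alls 2 (imp (pY 0 0) (imp (pY 1 1) (and (neg (incl (zeroX 0))) (incl (nuX 0 1))))))
  (imp (alls 3 (imp (pY 1 0) (imp (pY 0 1) (imp (pY 2 2) (incl (concX 0 1 2))))))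
  (imp (alls 3 (imp (pY 2 0) (imp (ap (incl (emb (num κ))) [1])
    (imp (pY 3 2) (incl (concX 0 1 2))))))
  (imp (all (imp (pY 4 0) (pY 6 0)))
  (imp (alls 2 (imp (pY 6 0) (imp (pY 5 1) (incl (e2X 0 1)))))
  (imp (ex (pY 1 0)) (imp (ex (pY 2 0))
    (imp (conY 5 3) (imp (ex (and (pY 0 0) (betY κ))) bot))))))))

theorem gY_sem {M : Type} [Nonempty M] (S : YStr M) (hq : QM (red S)) (κ : ℕ)
    (hf : ∀ φ ∈ funXs, ∀ e, Sat (red S) φ e) (e : ℕ → M) : Sat S (gY κ) e := by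
  obtain ⟨f1, f2, f3⟩ := fun_sem (red S) hf
  unfold gY
  simp only [sat_imp, sat_all, alls, sat_pY, sat_ap, sat_ex, sat_and, sat_neg, sat_incl,
    sat_zeroX, NumC_satNu, sat_concX, sat_e2X, sat_conY, sat_betY, intA_num, scons,
    List.getD_cons_zero]
  rintro h1 h2 h3 h4 h5 ⟨u1, hu1⟩ ⟨v1, hv1⟩ ⟨x1, hx1, a1, ha1, y1, hy1, hn⟩
    ⟨z, hz, u, v, k, a, x, q, y, g1, g2, g3, g4, g5, g6, g7, g8⟩
  have e1 : u = u1 := f1 z u u1 g1 (h1 u1 z hz hu1).2
  subst e1
  have e2 : v = v1 := f2 u z v v1 g2 (h2 v1 z u hu1 hz hv1)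
  subst e2
  have e3 : a = a1 := f2 v k a a1 g4 (h3 a1 k v hv1 g3 ha1)
  subst e3
  have e4 : q = x1 := f3 x q x1 g6 (h5 x1 x (h4 x g5) hx1)
  subst e4
  have e5 : y = y1 := isN_un hq g7 hy1
  subst e5
  exact hn g8

theorem subst_gY (sC κ m : ℕ) (P : Fin 8 → AFm) (hP : ∀ i, FVs (fun j => j < 1) (P i))
    (h4 : P 4 = num m) :
    subst (yi sC P) (gY κ) =
  imp (alls 2 (imp (ap (P 0) [0]) (imp (ap (P 1) [1]) (and (neg (zeroA 0)) nuF))))
  (imp (alls 3 (imp (ap (P 1) [0]) (imp (ap (P 0) [1]) (imp (ap (P 2) [2])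
    (ap concF [0, 1, 2])))))
  (imp (alls 3 (imp (ap (P 2) [0]) (imp (ap (num κ) [1]) (imp (ap (P 3) [2])
    (ap concF [0, 1, 2])))))
  (imp (all (imp (P 4) (P 6)))
  (imp (alls 2 (imp (ap (P 6) [0]) (imp (ap (P 5) [1]) exp2F)))
  (imp (ex (P 1)) (imp (ex (P 2))
    (imp (ex (and (P 5) (ex (and (P 3) (ex (and (num 16) (neg (ap provF [1, 2, 0]))))))))
      (imp (ex (and (P 0) (bet κ m))) bot)))))))) := by
  have hg := yi_good sC hP
  have hx := xb_good sC
  have e1 : ∀ x y z, subst (yi sC P) (incl (concX x y z)) = ap concF [x, y, z] :=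
    fun x y z => by rw [subst_yi_incl sC P hP, NumT_conc]
  have e2 : subst (yi sC P) (incl (nuX 0 1)) = nuF := by
    rw [subst_yi_incl sC P hP, NumC_nu sC hx]
  have e3 : subst (yi sC P) (incl (e2X 0 1)) = exp2F := by
    rw [subst_yi_incl sC P hP, NumC_e2 sC hx]
  have e4 : ∀ k, subst (yi sC P) (incl (emb (num k))) = num k := fun k => by
    rw [subst_yi_incl sC P hP, subst_xb_emb]
  have e5 : subst (yi sC P) (incl (ppX 1 2 0)) = ap provF [1, 2, 0] := by
    rw [subst_yi_incl sC P hP, NumT_pp]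
  have e6 : subst (yi sC P) (incl (zeroX 0)) = zeroA 0 := by
    rw [subst_yi_incl sC P hP, NumB_zero]
  unfold gY conY
  simp only [subst.eq_1, subst.eq_4, subst.eq_5, subst_alls, subst_ex, subst_and, subst_neg,
    subst_ap hg, subst_yi_pY sC P hP, NumB_ap0 (hP _), e1, e2, e3, e4, e5, e6,
    subst_betY sC κ m P hP h4]

variable (cE sC : ℕ) (T : List AFm) (hT : ∀ φ ∈ BaseA cE sC, φ ∈ T) (hc : ∀ φ ∈ T, Closed φ)
include hT hc

/-- The diagonal sentence and the consistency up to `2 ^ m` of the theory extended by it are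
contradictory, with a proof of quadratic length. -/
theorem short_contra (hF : ∀ φ ∈ funAs, φ ∈ T) : ∃ K, ∀ m,
    Pv {ψ | ψ ∈ T} (K * (m + 1) ^ 2)
      (imp (Con (sig (kap T) m :: T) (2 ^ m)) (imp (sig (kap T) m) bot)) := by
  obtain ⟨κ, hκ⟩ : ∃ κ, κ = kap T := ⟨_, rfl⟩
  rw [← hκ]
  obtain ⟨C0, h0⟩ := famY cE sC T hT hc funXs funXs_closed (by
      intro φ hφ
      rw [fun_subst sC φ hφ]
      exact hF _ (List.mem_map_of_mem hφ)) (φ := gY κ)
    (fun M _ S _ hq _ hE e => gY_sem S hq κ hE e)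
  obtain ⟨C1, h1⟩ := fam_nuG cE sC T hT hc
  obtain ⟨C2, h2⟩ := fam_concG cE sC T hT hc
  obtain ⟨C3, h3⟩ := fam_numU2 cE sC T hT hc
  obtain ⟨C4, h4⟩ := fam_e2 cE sC T hT hc
  obtain ⟨C5, h5⟩ := fam_exNum cE sC T hT hc
  obtain ⟨B, hB⟩ := len_bet κ
  obtain ⟨L, hL⟩ : ∃ L, L = (tailS ++ encodeL T).length := ⟨_, rfl⟩
  -- the size of all strings
  obtain ⟨W, hW⟩ : ∃ W, W = 1000 * (B + 1) + L + 1000 := ⟨_, rfl⟩
  obtain ⟨D, hD⟩ : ∃ D, D = C0 * (1601 * W) + C1 * W ^ 2 + C2 * (2 * W) ^ 2 + C3 + C4 +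
    C5 * W ^ 2 := ⟨_, rfl⟩
  refine ⟨255 * D, fun m => ?_⟩
  obtain ⟨X, hX⟩ : ∃ X, X = m + 1 := ⟨_, rfl⟩
  rw [← hX]
  have x0 : 1 ≤ X := by omega
  have y1 : X ≤ X ^ 2 := Nat.le_self_pow (by norm_num) _
  have hsz : Nat.size m + 1 ≤ X := by
    have := NumB_size_le m
    omega
  have hbl : len (bet κ m) ≤ B * X := (hB m).trans (Nat.mul_le_mul_left _ hsz)
  -- the strings
  obtain ⟨U, hU⟩ : ∃ U, U = encode (num (cd (bet κ m))) := ⟨_, rfl⟩
  obtain ⟨V, hV⟩ : ∃ V, V = encode (bet κ m) := ⟨_, rfl⟩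
  have hVl : V.length ≤ B * X := by rw [hV, length_encode]; exact hbl
  have hcd : cd (bet κ m) = codeS V := by rw [hV]; rfl
  have hUl : U.length ≤ 200 * (B * X) + 400 := by
    rw [hU, length_encode]
    have l1 := len_num (cd (bet κ m))
    have l2 := NumC_size_codeS V
    rw [← hcd] at l2
    omega
  have hcL : cdL (sig κ m :: T) = codeS (U ++ V ++ (tailS ++ encodeL T)) := by
    unfold cdL
    rw [encodeL_sig, hU, hV]
  have w1 : W * X = 1000 * (B * X) + L * X + 2000 * X := by rw [hW]; ring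
  have w2 : L ≤ L * X := Nat.le_mul_of_pos_right _ x0
  have hnum : ∀ w : List Bool, len (num (codeS w)) ≤ 200 * (w.length + 2) := by
    intro w
    have l1 := len_num (codeS w)
    have l2 := NumC_size_codeS w
    omega
  have hUVl : (U ++ V).length ≤ 201 * (B * X) + 400 := by
    rw [List.length_append]; omega
  have hall : (U ++ V ++ (tailS ++ encodeL T)).length ≤ 201 * (B * X) + 400 + L := by
    rw [List.length_append, ← hL]; omega
  -- the formulas
  obtain ⟨zb, hz0⟩ : ∃ zb, zb = codeS V := ⟨_, rfl⟩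
  obtain ⟨a0, ha0⟩ : ∃ a0, a0 = cdL (sig κ m :: T) := ⟨_, rfl⟩
  rw [← hz0] at hcd
  rw [← ha0] at hcL
  obtain ⟨P, hP⟩ : ∃ P : Fin 8 → AFm, P = ![num zb, num (codeS U),
    num (codeS (U ++ V)), num a0, num m, num (2 ^ m), Uf m, bot] := ⟨_, rfl⟩
  have hPf : ∀ i, FVs (fun j => j < 1) (P i) := by
    rw [hP]
    intro i
    fin_cases i
    · exact FVs_num _
    · exact FVs_num _
    · exact FVs_num _
    · exact FVs_num _
    · exact FVs_num _
    · exact FVs_num _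
    · exact Uf_fv _
    · trivial
  have hl : ∀ i, len (P i) ≤ 200 * (W * X) := by
    rw [hP]
    intro i
    fin_cases i
    · show len (num zb) ≤ _
      rw [hz0]
      have := hnum V; omega
    · show len (num (codeS U)) ≤ _
      have := hnum U; omega
    · show len (num (codeS (U ++ V))) ≤ _
      have := hnum (U ++ V); omega
    · show len (num a0) ≤ _
      rw [hcL]
      have := hnum (U ++ V ++ (tailS ++ encodeL T)); omega
    · show len (num m) ≤ _
      have := len_numc m; omega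
    · show len (num (2 ^ m)) ≤ _
      have := NumC_len_pow m; omega
    · show len (Uf m) ≤ _
      have := len_Uf m; omega
    · show 4 ≤ _
      omega
  obtain ⟨Z, hZ⟩ : ∃ Z, Z = D * X ^ 2 := ⟨_, rfl⟩
  have z0 : C0 * (1 + ∑ i, len (P i)) ≤ Z := by
    have h5 : ∑ i, len (P i) ≤ ∑ _i : Fin 8, 200 * (W * X) := Finset.sum_le_sum fun i _ => hl i
    have h6 : ∑ _i : Fin 8, 200 * (W * X) = 1600 * (W * X) := by
      rw [Finset.sum_const, Finset.card_univ, Fintype.card_fin, smul_eq_mul]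
      ring
    calc C0 * (1 + ∑ i, len (P i)) ≤ C0 * (1601 * (W * X)) :=
          Nat.mul_le_mul_left _ (by omega)
      _ ≤ C0 * (1601 * (W * X ^ 2)) :=
          Nat.mul_le_mul_left _ (Nat.mul_le_mul_left _ (Nat.mul_le_mul_left _ y1))
      _ = C0 * (1601 * W) * X ^ 2 := by ring
      _ ≤ Z := by rw [hZ]; exact Nat.mul_le_mul_right _ (by omega)
  have zz : ∀ (E k W' : ℕ), E * W' ^ 2 ≤ D → k ≤ W' * X → E * k ^ 2 ≤ Z := by
    intro E k W' hE hk
    calc E * k ^ 2 ≤ E * (W' * X) ^ 2 := Nat.mul_le_mul_left _ (Nat.pow_le_pow_left hk 2)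
      _ = E * W' ^ 2 * X ^ 2 := by ring
      _ ≤ D * X ^ 2 := Nat.mul_le_mul_right _ hE
      _ = Z := hZ.symm
  have g0 := (h0 P hPf).mono z0
  rw [subst_gY sC κ m P hPf (by rw [hP]; rfl), hP] at g0
  have d1 : C1 * W ^ 2 ≤ D := by omega
  have d2 : C2 * (2 * W) ^ 2 ≤ D := by omega
  have d3 : C3 * 1 ^ 2 ≤ D := by omega
  have d4 : C4 * 1 ^ 2 ≤ D := by omega
  have d5 : C5 * W ^ 2 ≤ D := by omega
  have g1 := (h1 zb (by rw [hz0]; exact codeS_pos V)).mono (zz C1 _ W d1 (by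
    have l2 := NumC_size_codeS V
    rw [← hz0] at l2
    omega))
  rw [← hcd, ← hU, hcd] at g1
  have g2 := (h2 U V).mono (zz C2 _ (2 * W) d2 (by
    have e : 2 * W * X = 2 * (W * X) := by ring
    rw [e]
    omega))
  rw [← hz0] at g2
  have g3 := (h2 (U ++ V) (tailS ++ encodeL T)).mono (zz C2 _ (2 * W) d2 (by
    have e : 2 * W * X = 2 * (W * X) := by ring
    rw [e, ← hL]
    omega))
  rw [← hcL] at g3
  have e3 : codeS (tailS ++ encodeL T) = κ := hκ.symm
  rw [e3] at g3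
  have g4 := (h3 m).mono (zz C3 _ 1 d3 (by omega))
  have g5 := (h4 m).mono (zz C4 _ 1 d4 (by omega))
  have g6 := (h5 (codeS U)).mono (zz C5 _ W d5 (by
    have l2 := NumC_size_codeS U
    omega))
  have g7 := (h5 (codeS (U ++ V))).mono (zz C5 _ W d5 (by
    have l2 := NumC_size_codeS (U ++ V)
    omega))
  have g : Pv {ψ | ψ ∈ T} (255 * Z)
      (imp (ex (and (num (2 ^ m)) (ex (and (num a0) (ex (and (num 16)
        (neg (ap provF [1, 2, 0])))))))) (imp (ex (and (num zb) (bet κ m))) bot)) :=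
    (((((((g0.mp' g1).mp' g2).mp' g3).mp' g4).mp' g5).mp' g6).mp' g7).mono (by omega)
  have e1 : 255 * D * X ^ 2 = 255 * Z := by rw [hZ]; ring
  have e2 : (ex (and (num (2 ^ m)) (ex (and (num a0) (ex (and (num 16)
        (neg (ap provF [1, 2, 0]))))))) : AFm) = Con (sig κ m :: T) (2 ^ m) := by
    rw [ha0]
    rfl
  have e3 : ex (and (num zb) (bet κ m)) = sig κ m := by
    rw [← hcd]
    rfl
  rw [e2, e3] at g
  rw [e1]
  exact g

end Pool.Agent.MycT
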