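import Pool.Agent.MycT.Dbl
import Pool.Agent.MycT.Lang

set_option autoImplicit false

/-!
# The descent from larger to smaller scales as an axiom
-/

namespace Pool.Agent.MycT

open Pool.Agent.Myc Fm

/-- The axiom `scal`, in the auxiliary language. The free variables are `0 = s`, `1 = n`, `2 = N`,
`3 = 2 ^ n`, `4 = 2 ^ N`, `5 = a`, `6 = b`, `7 = b'`, `8 = x`, `9 = x'`, where `a` is the code of a
list `T` of sentences which contains `dblA`, `b` and `b'` are the codes of `T + Con_T (2 ^ n)` and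
`T + Con_T (2 ^ N)`, `s` is at least a constant times the length of `T`, `n ≤ N` and
`x + s (N + 1) ^ 2 ≤ x'`. If `T + Con_T (2 ^ n)` has a contradiction of length `x` then
`T + Con_T (2 ^ N)` has one of length `x'`. -/
def scalX : XFm :=
  imp (szX 5 0) (imp (e2X 1 3) (imp (e2X 2 4) (imp (exL [10] (addX 1 10 2))
    (imp (clX 5 3 6) (imp (clX 5 4 7)
      (imp (exL [10, 11, 12, 13] (andL [lstX 10, lstX 11, isNX (cd dblA) 12, concX 10 12 13,
          concX 13 11 5]))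
        (imp (exL [10, 11, 12, 13, 14] (andL [succX 2 10, mulX 10 10 11, mulX 0 11 12,
            addX 8 12 13, addX 13 14 9]))
          (imp (exL [10] (and (isNX 16 10) (ppX 6 8 10)))
            (exL [10] (and (isNX 16 10) (ppX 7 9 10)))))))))))

/-- The axiom `scal`, in the auxiliary language. -/
def scalXs : XFm := alls 10 scalX

/-- The axiom `scal`. -/
def scalA (sC : ℕ) : AFm := subst (xi sC bot bot bot bot) scalXs

/-- Its meaning in a structure. -/
def ScalM {M : Type} (S : XStr M) : Prop :=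
  ∀ s n N q q' a b b' x x' : M, szR S a s → e2R S n q → e2R S N q' → (∃ u, addR S n u N) →
    clR S a q b → clR S a q' b' →
    (∃ a1 a2 d t, lstR S a1 ∧ lstR S a2 ∧ IsN S (cd dblA) d ∧ concR S a1 d t ∧ concR S t a2 a) →
    (∃ N1 N2 t u v, succR S N N1 ∧ mulR S N1 N1 N2 ∧ mulR S s N2 t ∧ addR S x t u ∧
      addR S u v x') →
    (∃ y, IsN S 16 y ∧ ppR S b x y) → ∃ y, IsN S 16 y ∧ ppR S b' x' y

theorem sat_scalX {M : Type} (S : XStr M) (e : ℕ → M) :
    Sat S scalX e ↔ (szR S (e 5) (e 0) → e2R S (e 1) (e 3) → e2R S (e 2) (e 4) →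
      (∃ u, addR S (e 1) u (e 2)) → clR S (e 5) (e 3) (e 6) → clR S (e 5) (e 4) (e 7) →
      (∃ a1 a2 d t, lstR S a1 ∧ lstR S a2 ∧ IsN S (cd dblA) d ∧ concR S a1 d t ∧
        concR S t a2 (e 5)) →
      (∃ N1 N2 t u v, succR S (e 2) N1 ∧ mulR S N1 N1 N2 ∧ mulR S (e 0) N2 t ∧
        addR S (e 8) t u ∧ addR S u v (e 9)) →
      (∃ y, IsN S 16 y ∧ ppR S (e 6) (e 8) y) → ∃ y, IsN S 16 y ∧ ppR S (e 7) (e 9) y) := by
  unfold scalX
  simp only [sat_imp, sat_szX, sat_e2X, sat_clX, sat_exL_cons, sat_exL_nil, sat_andL,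
    List.forall_mem_cons, List.not_mem_nil, false_imp_iff, implies_true, and_true,
    sat_and, sat_isNX, sat_lstX, sat_concX, sat_succX, sat_mulX, sat_addX, sat_ppX]
  simp [Function.update]

theorem scal_sem {M : Type} [Nonempty M] (S : XStr M) (h : ∀ e, Sat S scalXs e) : ScalM S := by
  intro s n N q q' a b b' x x'
  have h1 := (sat_alls _ _ _).1 h (fun i => [s, n, N, q, q', a, b, b', x, x'].getD i s)
  rw [sat_scalX] at h1
  exact h1

section
variable (P : ℕ → Prop)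

private theorem fv1 (x : ℕ) : (∀ k : Fin 1, P ((![x] : Fin 1 → ℕ) k)) ↔ P x := by
  simp
private theorem fv2 (x y : ℕ) : (∀ k : Fin 2, P ((![x, y] : Fin 2 → ℕ) k)) ↔ P x ∧ P y := by
  simp [Fin.forall_fin_succ]
private theorem fv3 (x y z : ℕ) :
    (∀ k : Fin 3, P ((![x, y, z] : Fin 3 → ℕ) k)) ↔ P x ∧ P y ∧ P z := by
  simp [Fin.forall_fin_succ]

theorem fv_succX (x y : ℕ) : FVs P (succX x y) ↔ P x ∧ P y := fv2 P x y
theorem fv_addX (x y z : ℕ) : FVs P (addX x y z) ↔ P x ∧ P y ∧ P z := fv3 P x y z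
theorem fv_mulX (x y z : ℕ) : FVs P (mulX x y z) ↔ P x ∧ P y ∧ P z := fv3 P x y z
theorem fv_concX (x y z : ℕ) : FVs P (concX x y z) ↔ P x ∧ P y ∧ P z := fv3 P x y z
theorem fv_ppX (x y z : ℕ) : FVs P (ppX x y z) ↔ P x ∧ P y ∧ P z := fv3 P x y z
theorem fv_szX (x y : ℕ) : FVs P (szX x y) ↔ P x ∧ P y := fv2 P x y
theorem fv_nuX (x y : ℕ) : FVs P (nuX x y) ↔ P x ∧ P y := fv2 P x y
theorem fv_e2X (x y : ℕ) : FVs P (e2X x y) ↔ P x ∧ P y := fv2 P x y
theorem fv_clX (x y z : ℕ) : FVs P (clX x y z) ↔ P x ∧ P y ∧ P z := fv3 P x y z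
theorem fv_lstX (x : ℕ) : FVs P (lstX x) ↔ P x := fv1 P x
theorem fv_eqX (x y : ℕ) : FVs P (Fm.eq x y : XFm) ↔ P x ∧ P y := Iff.rfl
theorem fv_impX (φ ψ : XFm) : FVs P (imp φ ψ) ↔ FVs P φ ∧ FVs P ψ := Iff.rfl
end

theorem scalX_fv : FVs (fun i => i < 10) scalX := by
  have h1 : ∀ k x (P : ℕ → Prop), P x → FVs P (isNX k x) := fun k x P h => isNX_fv k x P h
  simp [scalX, FVs_exL, FVs_and, FVs_andL, fv_impX, fv_szX, fv_e2X, fv_addX, fv_clX, fv_lstX,
    fv_concX, fv_succX, fv_mulX, fv_ppX, h1]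

theorem scalXs_closed : Closed scalXs := closed_alls scalX_fv

theorem scalA_closed (sC : ℕ) : Closed (scalA sC) := FVs_subst (xb_good sC) scalXs_closed

theorem isN_SN (sC k x : ℕ) : IsN (SN sC) k x ↔ x = k := by
  unfold IsN
  have h := sat_subst_xi sC (emb (num k)) (fun _ => x)
  rw [subst_xi_emb, sat_num] at h
  exact h.symm

/-- The axiom is true if `sC` is large. -/
theorem scalA_true (C sC : ℕ) (hC : ∀ (T : List AFm) (n N x : ℕ), dblA ∈ T → n ≤ N →
    Proves {ψ | ψ ∈ Con T (2 ^ n) :: T} x bot →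
    Proves {ψ | ψ ∈ Con T (2 ^ N) :: T}
      (x + C * (((encodeL T).length + 1) * (N + 1) ^ 2)) bot) (hs : C ≤ sC) :
    ∀ e, Sat NN (scalA sC) e := by
  intro e
  unfold scalA
  rw [sat_subst_xi]
  refine (sat_alls _ _ _).2 (fun e => ?_) e
  rw [sat_scalX]
  generalize e 0 = s
  generalize e 1 = n
  generalize e 2 = N
  generalize e 3 = q
  generalize e 4 = q'
  generalize e 5 = a
  generalize e 6 = b
  generalize e 7 = b'
  generalize e 8 = x
  generalize e 9 = x'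
  rintro ⟨w, hw, hsz⟩ he he' ⟨u, hu⟩ ⟨T, hT, hb⟩ ⟨T', hT', hb'⟩
    ⟨a1, a2, d, t, ⟨T1, h1⟩, ⟨T2, h2⟩, hd, hc1, hc2⟩
    ⟨N1, N2, t', u', v, k1, k2, k3, k4, k5⟩ ⟨y, hy, T3, φ, h3, h4, h5⟩
  have he1 : q = 2 ^ n := he
  have he2 : q' = 2 ^ N := he'
  have hu1 : n + u = N := hu
  have hT1 : a = cdL T := hT
  have hT2 : a = cdL T' := hT'
  have hb1 : b = cdL (Con T q :: T) := hb
  have hb2 : b' = cdL (Con T' q' :: T') := hb'
  have h11 : a1 = cdL T1 := h1
  have h21 : a2 = cdL T2 := h2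
  have hw1 : a = codeS w := hw
  have hsz1 : sC * (w.length + 1) ≤ s := hsz
  have hd1 : d = cd dblA := (isN_SN _ _ _).1 hd
  have hy1 : y = 16 := (isN_SN _ _ _).1 hy
  have k11 : N + 1 = N1 := k1
  have k21 : N1 * N1 = N2 := k2
  have k31 : s * N2 = t' := k3
  have k41 : x + t' = u' := k4
  have k51 : u' + v = x' := k5
  have h31 : b = cdL T3 := h3
  have h41 : y = cd φ := h4
  have h51 : Proves {ψ | ψ ∈ T3} x φ := h5
  have hc11 : Cc a1 d t := hc1
  have hc21 : Cc t a2 a := hc2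
  -- the lists
  have e1 : T = T' := cdL_inj (hT1.symm.trans hT2)
  subst e1
  have e2 : w = encodeL T := codeS_inj (hw1.symm.trans hT1)
  subst e2
  have e3 : Con T q :: T = T3 := cdL_inj (hb1.symm.trans h31)
  subst e3
  have e4 : φ = bot := by
    have : cd φ = cd bot := by rw [← h41, hy1, cd_bot]
    exact cd_inj this
  subst e4
  have e5 : t = codeS (encodeL T1 ++ encode dblA) := by
    rw [h11, hd1] at hc11
    exact (Cc_codeS _ _ _).1 hc11
  have e6 : a = codeS (encodeL T1 ++ encode dblA ++ encodeL T2) := by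
    rw [e5, h21] at hc21
    exact (Cc_codeS _ _ _).1 hc21
  have e7 : T = T1 ++ dblA :: T2 := by
    refine cdL_inj (hT1.symm.trans (e6.trans ?_))
    unfold cdL encodeL
    simp
  have hdm : dblA ∈ T := by
    rw [e7]
    simp
  subst he1 he2
  have hp := hC T n N x hdm (by omega) h51
  refine ⟨16, (isN_SN _ _ _).2 rfl, Con T (2 ^ N) :: T, bot, hb2, cd_bot.symm, ?_⟩
  refine proves_mono hp ?_
  show _ ≤ x'
  have e8 : C * (((encodeL T).length + 1) * (N + 1) ^ 2) ≤ s * ((N + 1) * (N + 1)) := by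
    calc C * (((encodeL T).length + 1) * (N + 1) ^ 2)
        = C * ((encodeL T).length + 1) * ((N + 1) * (N + 1)) := by ring
      _ ≤ s * ((N + 1) * (N + 1)) :=
        Nat.mul_le_mul_right _ ((Nat.mul_le_mul_right _ hs).trans hsz1)
  have e9 : s * ((N + 1) * (N + 1)) = t' := by rw [← k31, ← k21, ← k11]
  rw [e9] at e8
  omega

end Pool.Agent.MycT
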