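import Pool.Agent.MycT.PartC
import Pool.Agent.Myc.RepE

set_option autoImplicit false

/-!
# The quadratic threshold
-/

namespace Pool.Agent.MycT

open Pool.Agent.Myc Fm

/-- The base theory for the quadratic threshold. -/
def BaseT (cE sC : ℕ) : List AFm := BaseA cE sC ++ funAs

theorem BaseT_closed (cE sC : ℕ) : ∀ φ ∈ BaseT cE sC, Closed φ := by
  intro φ hφ
  rcases List.mem_append.1 hφ with h | h
  · exact BaseA_closed cE sC φ h
  · exact funAs_closed φ h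

theorem A0_mem (cE sC : ℕ) : ∀ φ ∈ A0, φ ∈ BaseT cE sC := by
  intro φ hφ
  simp only [BaseT, BaseA, List.mem_append]
  exact Or.inl (Or.inl hφ)

theorem BaseT_true {cE sC : ℕ} (hrep : ∀ (m : ℕ) (T : List AFm) (x : ℕ),
    sC * ((encodeL T).length + 1) ≤ m → x ≤ m ^ 2 →
    Proves {ψ | ψ ∈ Con T (2 ^ m) :: T} x bot → Proves {ψ | ψ ∈ A0 ++ T} (m ^ cE) bot) :
    ∀ φ ∈ BaseT cE sC, ∀ e, Sat NN φ e := by
  intro φ hφ
  rcases List.mem_append.1 hφ with h | h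
  · exact BaseA_true sC cE hrep φ h
  · exact funAs_true φ h

/-- The diagonal sentences show that the quadratic bound is best possible. -/
theorem sharp (cE sC : ℕ) (S : List AFm) (hB : ∀ φ ∈ BaseT cE sC, φ ∈ S)
    (hc : ∀ φ ∈ S, Closed φ) (ht : ∀ φ ∈ S, ∀ e, Sat NN φ e) :
    ∃ K : ℕ, ∀ m : ℕ, ∃ σ : AFm, Closed σ ∧ (encode σ).length ≤ K * (Nat.size m + 1) ∧
      ¬ Proves {φ | φ ∈ σ :: S} (2 ^ m) bot ∧
      Proves {φ | φ ∈ Con (σ :: S) (2 ^ m) :: σ :: S} (K * (m + 1) ^ 2) bot := by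
  obtain ⟨K1, h1⟩ := short_contra cE sC S (fun φ hφ => hB φ (List.mem_append_left _ hφ)) hc
    (fun φ hφ => hB φ (List.mem_append_right _ hφ))
  obtain ⟨K2, h2⟩ := len_sig (kap S)
  refine ⟨K1 * 8 + K2, fun m => ⟨sig (kap S) m, sig_closed _ _, ?_, not_proves_sig S ht m, ?_⟩⟩
  · rw [length_encode]
    exact (h2 m).trans (Nat.mul_le_mul_right _ (by omega))
  · rw [proves_iff]
    have g0 : Pv {φ | φ ∈ Con (sig (kap S) m :: S) (2 ^ m) :: sig (kap S) m :: S} _ _ :=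
      (h1 m).weaken (fun ψ hψ => List.mem_cons_of_mem _ (List.mem_cons_of_mem _ hψ))
    have l0 := g0.len_le
    have l1 : len (imp (Con (sig (kap S) m :: S) (2 ^ m)) (imp (sig (kap S) m) bot)) =
      len (Con (sig (kap S) m :: S) (2 ^ m)) + (len (sig (kap S) m) + 4 + 4) + 4 := rfl
    have g1 : Pv {φ | φ ∈ Con (sig (kap S) m :: S) (2 ^ m) :: sig (kap S) m :: S}
        (len (Con (sig (kap S) m :: S) (2 ^ m))) (Con (sig (kap S) m :: S) (2 ^ m)) :=
      Pv.hyp List.mem_cons_self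
    have g2 : Pv {φ | φ ∈ Con (sig (kap S) m :: S) (2 ^ m) :: sig (kap S) m :: S}
        (len (sig (kap S) m)) (sig (kap S) m) :=
      Pv.hyp (List.mem_cons_of_mem _ List.mem_cons_self)
    refine ((g0.mp' g1).mp' g2).mono ?_
    have e1 : (K1 * 8 + K2) * (m + 1) ^ 2 = 8 * (K1 * (m + 1) ^ 2) + K2 * (m + 1) ^ 2 := by ring
    rw [e1]
    omega

end Pool.Agent.MycT
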